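import Mathlib
import Pool.Agent.Tor.Defs
import Pool.Agent.Tor.TyDefs

/-!
# Regular toroids of all ranks: auxiliary definitions
-/

set_option autoImplicit false

namespace Pool.Agent.Tor.All

/-- The symmetry group of a regular tessellation of `E^n` with vertex set the lattice `T`: all
bijections of `T` which preserve (squared) Euclidean distances. -/
def isomGroup {n : ℕ} (T : AddSubgroup (Fin n → ℤ)) : Subgroup (Equiv.Perm T) where
  carrier := {f | ∀ x y : T, ∑ i, ((f x).1 i - (f y).1 i) ^ 2 = ∑ i, (x.1 i - y.1 i) ^ 2}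
  mul_mem' {f g} hf hg x y := by
    rw [Equiv.Perm.mul_apply, Equiv.Perm.mul_apply, hf, hg]
  one_mem' x y := rfl
  inv_mem' {f} hf x y := by
    rw [← hf]
    simp

/-- The point group: the symmetries which fix the origin. -/
def pointGroup {n : ℕ} (T : AddSubgroup (Fin n → ℤ)) : Subgroup (Equiv.Perm T) where
  carrier := {f | f ∈ isomGroup T ∧ f 0 = 0}
  mul_mem' {f g} hf hg := ⟨mul_mem hf.1 hg.1, by rw [Equiv.Perm.mul_apply, hg.2, hf.2]⟩
  one_mem' := ⟨one_mem _, rfl⟩
  inv_mem' {f} hf := ⟨inv_mem hf.1, by rw [Equiv.Perm.inv_eq_iff_eq, hf.2]⟩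

/-- The lattice generated by the images of `v` under the point group. -/
def orbitLattice {n : ℕ} (T : AddSubgroup (Fin n → ℤ)) (v : T) : AddSubgroup T :=
  AddSubgroup.closure {x | ∃ f ∈ pointGroup T, f v = x}

/-- The translations by the vectors of the lattice generated by the images of `v`. -/
def translationsBy {n : ℕ} (T : AddSubgroup (Fin n → ℤ)) (v : T) : Subgroup (isomGroup T) where
  carrier := {f | ∃ u ∈ orbitLattice T v, ∀ x, f.1 x = x + u}
  mul_mem' {f g} := by
    rintro ⟨v, hv, hf⟩ ⟨w, hw, hg⟩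
    refine ⟨w + v, add_mem hw hv, fun x => ?_⟩
    show f.1 (g.1 x) = _
    rw [hf, hg, add_assoc]
  one_mem' := ⟨0, zero_mem _, fun x => (add_zero x).symm⟩
  inv_mem' {f} := by
    rintro ⟨v, hv, hf⟩
    refine ⟨-v, neg_mem hv, fun x => ?_⟩
    show f.1.symm x = _
    rw [Equiv.symm_apply_eq, hf]
    abel

/-- The multiples of the integer `m` in `T`. -/
def multiples {n : ℕ} (T : AddSubgroup (Fin n → ℤ)) (m : ℕ) : AddSubgroup T :=
  (nsmulAddMonoidHom m).range

/-- The subgroup `M` of `T` is stable under the group `Q`. -/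
def StableUnder {n : ℕ} {T : AddSubgroup (Fin n → ℤ)} (Q : Subgroup (pointGroup T))
    (M : AddSubgroup T) : Prop := ∀ f ∈ Q, ∀ x ∈ M, f.1 x ∈ M

/-- The core of `M` (the intersection of all images of `M` under the point group) is `L`. -/
def CoreIs {n : ℕ} {T : AddSubgroup (Fin n → ℤ)} (M L : AddSubgroup T) : Prop :=
  ∀ x : T, (∀ f : pointGroup T, f.1 x ∈ M) ↔ x ∈ L

/-- The realizable lists. -/
def Realizable {n : ℕ} {T : AddSubgroup (Fin n → ℤ)} (Q : Subgroup (pointGroup T)) (p : ℕ)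
    (L : List (AddSubgroup T × ℕ)) : Prop :=
  ∃ M : AddSubgroup T, StableUnder Q M ∧ (∀ x : T, p ^ tot L • x ∈ M) ∧
    ∀ (j : ℕ) (x : T), x ∈ layerAt L j ↔ ∃ y : T, p ^ j • (x - p • y) ∈ M

/-- The admissible lists. -/
def Admissible {n : ℕ} {T : AddSubgroup (Fin n → ℤ)} (Q : Subgroup (pointGroup T)) (p b : ℕ)
    (Y : AddSubgroup T) (L : List (AddSubgroup T × ℕ)) : Prop :=
  (∀ x ∈ L, StableUnder Q x.1 ∧ (∀ y : T, p • y ∈ x.1) ∧ x.1 ≠ ⊤ ∧ 1 ≤ x.2) ∧
  L.Pairwise (fun x y => x.1 < y.1) ∧ tot L = b ∧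
  (∀ x ∈ L.getLast?, CoreIs x.1 Y) ∧
  (p ∣ Nat.card Q → Realizable Q p (cut (2 * (Nat.card Q).factorization p + 2) L))

open Classical in
/-- The exponent of `p` in `s`, plus one if `p = 2` and the images of `v` do not generate `T`. -/
noncomputable def localExp {n : ℕ} (T : AddSubgroup (Fin n → ℤ)) (v : T) (s p : ℕ) : ℕ :=
  if p = 2 ∧ orbitLattice T v ≠ ⊤ then s.factorization p + 1 else s.factorization p

open Classical in
/-- The lattice `p T`, but the lattice generated by the images of `v` if `p = 2` and these do not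
generate `T`. -/
noncomputable def localCore {n : ℕ} (T : AddSubgroup (Fin n → ℤ)) (v : T) (p : ℕ) :
    AddSubgroup T :=
  if p = 2 ∧ orbitLattice T v ≠ ⊤ then orbitLattice T v else multiples T p

/-- The set of degrees. -/
def degreeSet {n : ℕ} (T : AddSubgroup (Fin n → ℤ)) (v : T) (s : ℕ) : Set ℕ :=
  {d | ∃ (Q : Subgroup (pointGroup T)) (L : ℕ → List (AddSubgroup T × ℕ)),
    (∀ p ∈ (2 * s).primeFactors, Admissible Q p (localExp T v s p) (localCore T v p) (L p)) ∧
    d = Q.index * ∏ p ∈ (2 * s).primeFactors, ((L p).map fun x => x.1.index ^ x.2).prod}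

end Pool.Agent.Tor.All
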