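import Mathlib
import Pool.Agent.Tor.All.Defs

/-!
# The families of regular toroids
-/

set_option autoImplicit false

namespace Pool.Agent.Tor.All

/-- The vector `(1^k, 0^(n-k))` of the lattice `ℤ^n` (the vertex set of the cubic tessellation
`{4, 3^(n-2), 4}`). -/
def cubicSeed (n k : ℕ) : (⊤ : AddSubgroup (Fin n → ℤ)) := ⟨seed n k 1, AddSubgroup.mem_top _⟩

/-- The vectors of `ℤ^4` all of whose coordinates have the same parity: twice the lattice of the
Hurwitz quaternions, the vertex set of the tessellation `{3, 3, 4, 3}`. -/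
def hurwitz : AddSubgroup (Fin 4 → ℤ) where
  carrier := {x | ∀ i j, 2 ∣ x i - x j}
  add_mem' {a b} ha hb i j := by
    have : (a + b) i - (a + b) j = (a i - a j) + (b i - b j) := by
      rw [Pi.add_apply, Pi.add_apply]
      ring
    rw [this]
    exact dvd_add (ha i j) (hb i j)
  zero_mem' i j := by simp
  neg_mem' {a} ha i j := by
    have : (-a) i - (-a) j = - (a i - a j) := by
      rw [Pi.neg_apply, Pi.neg_apply]
      ring
    rw [this]
    exact (dvd_neg).mpr (ha i j)

/-- The vector `2 (1^k, 0^(4-k))` of the lattice `hurwitz`. -/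
def hurwitzSeed (k : ℕ) : hurwitz := ⟨seed 4 k 2, fun i j => by
  unfold seed
  split_ifs <;> norm_num⟩

end Pool.Agent.Tor.All
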