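import Mathlib
import Pool.Agent.Tor.All.Defs
import Pool.Agent.Tor.LocalThm

/-!
# Isometries of lattices
-/

set_option autoImplicit false

namespace Pool.Agent.Tor.All

variable {n : ℕ} {T : AddSubgroup (Fin n → ℤ)}

/-- The squared norm. -/
def nrm (x : Fin n → ℤ) : ℤ := ∑ i, x i ^ 2

theorem nrm_eq_zero {x : Fin n → ℤ} (h : nrm x = 0) : x = 0 := by
  unfold nrm at h
  rw [Finset.sum_eq_zero_iff_of_nonneg (fun i _ => sq_nonneg _)] at h
  funext i
  have := h i (Finset.mem_univ i)
  exact pow_eq_zero_iff (two_ne_zero) |>.mp this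

theorem nrm_sub (x y : Fin n → ℤ) : nrm (x - y) = nrm x + nrm y - 2 * ∑ i, x i * y i := by
  unfold nrm
  rw [Finset.mul_sum, ← Finset.sum_add_distrib, ← Finset.sum_sub_distrib]
  refine Finset.sum_congr rfl fun i _ => ?_
  rw [Pi.sub_apply]
  ring

theorem isom_nrm {f : Equiv.Perm T} (hf : f ∈ isomGroup T) (x y : T) :
    nrm ((f x).1 - (f y).1) = nrm (x.1 - y.1) := hf x y

theorem point_nrm {f : Equiv.Perm T} (hf : f ∈ pointGroup T) (x : T) :
    nrm (f x).1 = nrm x.1 := by
  have h := isom_nrm hf.1 x 0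
  rw [hf.2] at h
  simpa using h

theorem point_inner {f : Equiv.Perm T} (hf : f ∈ pointGroup T) (x y : T) :
    ∑ i, (f x).1 i * (f y).1 i = ∑ i, x.1 i * y.1 i := by
  have h := isom_nrm hf.1 x y
  rw [nrm_sub, nrm_sub, point_nrm hf, point_nrm hf] at h
  omega

theorem point_add {f : Equiv.Perm T} (hf : f ∈ pointGroup T) (x y : T) :
    f (x + y) = f x + f y := by
  apply Subtype.ext
  have key : nrm ((f (x + y)).1 - (f x).1 - (f y).1) = 0 := by
    have e : ∀ a b c : Fin n → ℤ, nrm (a - b - c) = nrm a + nrm b + nrm c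
        - 2 * ∑ i, a i * b i - 2 * ∑ i, a i * c i + 2 * ∑ i, b i * c i := by
      intro a b c
      rw [nrm_sub, nrm_sub]
      have : ∑ i, (a - b) i * c i = ∑ i, a i * c i - ∑ i, b i * c i := by
        rw [← Finset.sum_sub_distrib]
        refine Finset.sum_congr rfl fun i _ => ?_
        rw [Pi.sub_apply]
        ring
      rw [this]
      ring
    rw [e, point_nrm hf, point_nrm hf, point_nrm hf, point_inner hf, point_inner hf,
      point_inner hf, ← e]
    have : (x + y : T).1 - x.1 - y.1 = 0 := by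
      rw [AddSubgroup.coe_add]
      abel
    rw [this]
    unfold nrm
    simp
  have h := nrm_eq_zero key
  rw [AddSubgroup.coe_add]
  have h2 : (f (x + y)).1 = (f x).1 + (f y).1 := by
    rw [← sub_eq_zero, ← h]
    abel
  exact h2

/-- The action of the point group. -/
instance pointAct (T : AddSubgroup (Fin n → ℤ)) : DistribMulAction (pointGroup T) T where
  smul f x := f.1 x
  one_smul x := rfl
  mul_smul f g x := rfl
  smul_zero f := f.2.2
  smul_add f x y := point_add f.2 x y

theorem smul_def (f : pointGroup T) (x : T) : f • x = f.1 x := rfl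

theorem point_nrm' (f : pointGroup T) (x : T) : nrm (f • x).1 = nrm x.1 := point_nrm f.2 x

/-- The translations. -/
def τ (T : AddSubgroup (Fin n → ℤ)) : Multiplicative T →* isomGroup T where
  toFun v := ⟨Equiv.addRight v.toAdd, fun x y => by
    refine Finset.sum_congr rfl fun i _ => ?_
    show ((x + v.toAdd : T).1 i - (y + v.toAdd : T).1 i) ^ 2 = _
    rw [AddSubgroup.coe_add, AddSubgroup.coe_add, Pi.add_apply, Pi.add_apply]
    ring⟩
  map_one' := by
    ext1
    ext1 x
    exact add_zero x
  map_mul' a b := by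
    ext1
    ext1 x
    show x + (a.toAdd + b.toAdd) = (x + b.toAdd) + a.toAdd
    abel

theorem τ_apply (v : Multiplicative T) (x : T) : (τ T v).1 x = x + v.toAdd := rfl

theorem τ_inj : Function.Injective (τ T) := by
  intro a b h
  have := congrArg (fun f : isomGroup T => f.1 0) h
  simp only [τ_apply, zero_add] at this
  exact this

/-- The inclusion of the point group. -/
def ι (T : AddSubgroup (Fin n → ℤ)) : pointGroup T →* isomGroup T :=
  Subgroup.inclusion (fun _ hf => hf.1)

theorem ι_apply (f : pointGroup T) (x : T) : (ι T f).1 x = f • x := rfl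

/-- The linear part. -/
def linPart (f : isomGroup T) : pointGroup T :=
  ⟨(τ T (Multiplicative.ofAdd (-(f.1 0))) * f).1, (τ T (Multiplicative.ofAdd (-(f.1 0))) * f).2, by
    show f.1 0 + -(f.1 0) = 0
    exact add_neg_cancel _⟩

theorem linPart_spec (f : isomGroup T) (x : T) : f.1 x = linPart f • x + f.1 0 := by
  show f.1 x = (f.1 x + -(f.1 0)) + f.1 0
  abel

theorem linPart_unique {f : isomGroup T} {w : pointGroup T} {u : T}
    (h : ∀ x, f.1 x = w • x + u) : linPart f = w := by
  have h0 : u = f.1 0 := by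
    rw [h 0, smul_zero, zero_add]
  apply Subtype.ext
  apply Equiv.ext
  intro x
  have h1 := h x
  rw [linPart_spec f x, h0] at h1
  exact add_right_cancel h1

/-- The linear part as a homomorphism. -/
def ρ (T : AddSubgroup (Fin n → ℤ)) : isomGroup T →* pointGroup T where
  toFun := linPart
  map_one' := linPart_unique (u := 0) fun x => by
    rw [one_smul, add_zero]
    rfl
  map_mul' f g := linPart_unique (u := linPart f • g.1 0 + f.1 0) fun x => by
    show f.1 (g.1 x) = _
    rw [linPart_spec f, linPart_spec g x, smul_add, mul_smul, add_assoc]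

theorem ρ_spec (f : isomGroup T) (x : T) : f.1 x = ρ T f • x + f.1 0 := linPart_spec f x

theorem ρ_ι (w : pointGroup T) : ρ T (ι T w) = w :=
  linPart_unique (u := 0) fun x => by rw [ι_apply, add_zero]

theorem ker_ρ : (ρ T).ker = (τ T).range := by
  ext f
  rw [MonoidHom.mem_ker, MonoidHom.mem_range]
  constructor
  · intro h
    refine ⟨Multiplicative.ofAdd (f.1 0), ?_⟩
    ext1
    ext1 x
    rw [τ_apply, ρ_spec f x, h, one_smul]
    rfl
  · rintro ⟨v, rfl⟩
    exact linPart_unique (u := v.toAdd) fun x => by rw [τ_apply, one_smul]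

theorem conj_τ (w : pointGroup T) (v : T) :
    ι T w * τ T (Multiplicative.ofAdd v) * (ι T w)⁻¹ = τ T (Multiplicative.ofAdd (w • v)) := by
  rw [mul_inv_eq_iff_eq_mul]
  ext1
  ext1 x
  show w • (x + v) = w • x + w • v
  exact smul_add w x v

theorem conj_τ' (g : isomGroup T) (v : T) :
    g * τ T (Multiplicative.ofAdd v) * g⁻¹ = τ T (Multiplicative.ofAdd (ρ T g • v)) := by
  rw [mul_inv_eq_iff_eq_mul]
  ext1
  ext1 x
  show g.1 (x + v) = g.1 x + ρ T g • v
  rw [ρ_spec g (x + v), ρ_spec g x, smul_add]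
  abel

theorem orbitLattice_eq (v : T) :
    orbitLattice T v = AddSubgroup.closure {x | ∃ w : pointGroup T, w • v = x} := by
  unfold orbitLattice
  congr 1
  ext x
  constructor
  · rintro ⟨f, hf, h⟩
    exact ⟨⟨f, hf⟩, h⟩
  · rintro ⟨w, h⟩
    exact ⟨w.1, w.2, h⟩

theorem smul_mem_orbitLattice {v : T} (w : pointGroup T) {x : T} (hx : x ∈ orbitLattice T v) :
    w • x ∈ orbitLattice T v := by
  rw [orbitLattice_eq] at hx ⊢
  induction hx using AddSubgroup.closure_induction with
  | mem x hx =>
    obtain ⟨w', rfl⟩ := hx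
    exact AddSubgroup.subset_closure ⟨w * w', mul_smul w w' _⟩
  | zero => rw [smul_zero]; exact zero_mem _
  | add x y _ _ hx hy => rw [smul_add]; exact add_mem hx hy
  | neg x _ hx => rw [smul_neg]; exact neg_mem hx

theorem mem_translationsBy {v : T} (g : isomGroup T) :
    g ∈ translationsBy T v ↔ ∃ u ∈ orbitLattice T v, τ T (Multiplicative.ofAdd u) = g := by
  constructor
  · rintro ⟨u, hu, h⟩
    refine ⟨u, hu, ?_⟩
    ext1
    ext1 x
    rw [τ_apply, h x]
    rfl
  · rintro ⟨u, hu, rfl⟩
    exact ⟨u, hu, fun x => rfl⟩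

theorem conj_mem_translationsBy {v : T} (g : isomGroup T) (hg : g ∈ translationsBy T v)
    (h : isomGroup T) : h * g * h⁻¹ ∈ translationsBy T v := by
  obtain ⟨u, hu, rfl⟩ := (mem_translationsBy g).mp hg
  rw [conj_τ', mem_translationsBy]
  exact ⟨_, smul_mem_orbitLattice _ hu, rfl⟩

end Pool.Agent.Tor.All
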