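import Mathlib
import Pool.Agent.Tor.All.Iso

/-!
# Lattices between `2 ℤ^n` and `ℤ^n`
-/

set_option autoImplicit false

namespace Pool.Agent.Tor.All

variable {n : ℕ} {T : AddSubgroup (Fin n → ℤ)}

/-- The lattice contains all multiples of two and is stable under signed permutations. -/
structure Nice (T : AddSubgroup (Fin n → ℤ)) : Prop where
  h2 : ∀ x : Fin n → ℤ, 2 • x ∈ T
  hW : ∀ (w : W n), ∀ x ∈ T, w • x ∈ T

theorem exists_point (hT : Nice T) (w : W n) :
    ∃ g : pointGroup T, ∀ x : T, (g • x).1 = w • x.1 := by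
  refine ⟨⟨⟨fun x => ⟨w • x.1, hT.hW w x.1 x.2⟩, fun x => ⟨w⁻¹ • x.1, hT.hW w⁻¹ x.1 x.2⟩,
    fun x => Subtype.ext (inv_smul_smul _ _), fun x => Subtype.ext (smul_inv_smul _ _)⟩,
      ⟨fun x y => ?_, ?_⟩⟩, fun x => rfl⟩
  · have h := sum_sq_smul w (x.1 - y.1)
    rw [smul_sub] at h
    exact h
  · exact Subtype.ext (smul_zero w)

theorem fg_T (T : AddSubgroup (Fin n → ℤ)) : AddGroup.FG T := by
  rw [AddGroup.fg_iff_addSubgroup_fg, ← AddSubgroup.toIntSubmodule_toAddSubgroup T,
    ← Submodule.fg_iff_addSubgroup_fg]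
  exact IsNoetherian.noetherian _

theorem index_mulT_ne (T : AddSubgroup (Fin n → ℤ)) (m : ℕ) (hm : m ≠ 0) :
    (mulT T m).index ≠ 0 := by
  have h1 := fg_T T
  rw [AddSubgroup.index_ne_zero_iff_finite]
  have h2 : AddGroup.FG (T ⧸ mulT T m) := inferInstance
  apply AddCommGroup.finite_of_fg_isAddTorsion
  intro x
  obtain ⟨y, rfl⟩ := QuotientAddGroup.mk_surjective x
  rw [isOfFinAddOrder_iff_nsmul_eq_zero]
  exact ⟨m, Nat.pos_of_ne_zero hm, (QuotientAddGroup.eq_zero_iff (m • y)).mpr ⟨y, rfl⟩⟩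

theorem nsmul_inj {m : ℕ} (hm : m ≠ 0) {x y : T} (h : m • x = m • y) : x = y := by
  apply Subtype.ext
  funext i
  have h1 := congrArg (fun z : T => z.1 i) h
  simp only [AddSubgroup.coe_nsmul, Pi.smul_apply, nsmul_eq_mul] at h1
  have h2 : (m : ℤ) ≠ 0 := by exact_mod_cast hm
  exact mul_left_cancel₀ h2 h1

/-- The vector `2 a e_i`. -/
def E (hT : Nice T) (i : Fin n) (a : ℤ) : T := ⟨2 • Pi.single i a, hT.h2 _⟩

theorem E_val (hT : Nice T) (i : Fin n) (a : ℤ) : (E hT i a).1 = Pi.single i (2 * a) := by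
  show (2 • Pi.single i a : Fin n → ℤ) = _
  funext j
  by_cases h : j = i
  · subst h
    simp
  · simp [h]

theorem zsmul_E (hT : Nice T) (i : Fin n) (a b : ℤ) : b • E hT i a = E hT i (b * a) := by
  apply Subtype.ext
  rw [AddSubgroup.coe_zsmul, E_val, E_val]
  funext j
  by_cases h : j = i
  · subst h
    simp
    ring
  · simp [h]

theorem two_smul_eq (hT : Nice T) (x : T) : 2 • x = ∑ i, E hT i (x.1 i) := by
  apply Subtype.ext
  rw [AddSubgroup.coe_nsmul, AddSubgroup.val_finsetSum]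
  funext j
  rw [Finset.sum_apply, Finset.sum_eq_single j]
  · rw [E_val, Pi.single_eq_same, Pi.smul_apply, nsmul_eq_mul]
    norm_num
  · intro b _ hb
    rw [E_val, Pi.single_eq_of_ne (Ne.symm hb)]
  · intro h
    exact absurd (Finset.mem_univ j) h

theorem coord_mem (hT : Nice T) {K : AddSubgroup T}
    (hK : ∀ (w : pointGroup T), ∀ x ∈ K, w • x ∈ K) {x : T} (hx : x ∈ K) (i : Fin n) :
    E hT i (x.1 i) ∈ K := by
  obtain ⟨g, hg⟩ := exists_point hT (⟨Function.update 1 i (-1), 1⟩ : W n)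
  have h1 : E hT i (x.1 i) = x - g • x := by
    apply Subtype.ext
    rw [E_val, AddSubgroup.coe_sub, hg]
    funext j
    rw [Pi.sub_apply, smul_apply]
    by_cases h : j = i
    · subst h
      simp
      ring
    · simp [h]
  rw [h1]
  exact sub_mem hx (hK g x hx)

theorem swap_mem (hT : Nice T) {K : AddSubgroup T}
    (hK : ∀ (w : pointGroup T), ∀ x ∈ K, w • x ∈ K) {i : Fin n} {a : ℤ} (h : E hT i a ∈ K)
    (j : Fin n) : E hT j a ∈ K := by
  obtain ⟨g, hg⟩ := exists_point hT (⟨1, Equiv.swap i j⟩ : W n)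
  have h1 : E hT j a = g • E hT i a := by
    apply Subtype.ext
    rw [hg, E_val, E_val, smul_single]
    simp
  rw [h1]
  exact hK g _ h

theorem good (hT : Nice T) (hn : 0 < n) {p : ℕ} (hp : p.Prime) (hp2 : p ≠ 2) :
    Good T (pointGroup T) p := by
  have hcop : Nat.Coprime p 2 := (Nat.coprime_primes hp Nat.prime_two).mpr hp2
  refine ⟨fun x y h => nsmul_inj hp.ne_zero h, ⟨E hT ⟨0, hn⟩ 1, fun y hy => ?_⟩, ?_⟩
  · have h1 := congrArg (fun z : T => z.1 ⟨0, hn⟩) hy
    simp only [AddSubgroup.coe_nsmul, Pi.smul_apply, nsmul_eq_mul, E_val, Pi.single_eq_same] at h1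
    have h2 : (p : ℤ) ∣ 2 := ⟨_, by rw [h1]; ring⟩
    have h3 : p ∣ 2 := by exact_mod_cast h2
    exact hp2 ((Nat.prime_dvd_prime_iff_eq hp Nat.prime_two).mp h3)
  · intro K hK hpK
    by_cases hc : ∀ x ∈ K, ∃ y, p • y = x
    · exact Or.inr hc
    · left
      push Not at hc
      obtain ⟨x, hx, hxp⟩ := hc
      obtain ⟨i, hi⟩ : ∃ i, ¬ (p : ℤ) ∣ x.1 i := by
        by_contra hcon
        push Not at hcon
        choose y hy using hcon
        have hyT : y ∈ T := by
          refine mem_of_coprime hcop ?_ (hT.h2 y)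
          have : p • y = x.1 := by
            funext i
            rw [Pi.smul_apply, nsmul_eq_mul, hy]
          rw [this]
          exact x.2
        apply hxp ⟨y, hyT⟩
        apply Subtype.ext
        rw [AddSubgroup.coe_nsmul]
        funext i
        rw [Pi.smul_apply, nsmul_eq_mul, hy]
      have h1 := coord_mem hT hK hx i
      have h2 : E hT i 1 ∈ K := by
        have hic : IsCoprime (x.1 i) (p : ℤ) := by
          rw [Int.isCoprime_iff_gcd_eq_one, Int.gcd_comm]
          exact (Nat.Prime.coprime_iff_not_dvd hp).mpr (fun h => hi (Int.natCast_dvd.mpr h))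
        obtain ⟨a, b, hab⟩ := hic
        have h3 : E hT i 1 = a • E hT i (x.1 i) + b • (p • E hT i 1) := by
          rw [zsmul_E, ← natCast_zsmul, smul_smul, zsmul_E]
          apply Subtype.ext
          rw [AddSubgroup.coe_add, E_val, E_val, E_val, ← Pi.single_add, ← mul_add]
          congr 2
          linear_combination -hab
        rw [h3]
        exact add_mem (zsmul_mem h1 a) (zsmul_mem (hpK _) b)
      rw [eq_top_iff]
      intro y _
      refine mem_of_coprime hcop (hpK y) ?_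
      rw [two_smul_eq hT]
      refine sum_mem fun j _ => ?_
      have h3 : E hT j (y.1 j) = (y.1 j) • E hT j 1 := by
        rw [zsmul_E, mul_one]
      rw [h3]
      exact zsmul_mem (swap_mem hT hK h2 j) _

theorem E_nrm (hT : Nice T) (i : Fin n) (a : ℤ) : nrm (E hT i a).1 = 4 * a ^ 2 := by
  unfold nrm
  rw [E_val, Finset.sum_eq_single i]
  · rw [Pi.single_eq_same]
    ring
  · intro b _ hb
    rw [Pi.single_eq_of_ne hb]
    norm_num
  · intro h
    exact absurd (Finset.mem_univ i) h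

theorem point_ext (hT : Nice T) {w w' : pointGroup T}
    (h : ∀ i, w • E hT i 1 = w' • E hT i 1) : w = w' := by
  apply Subtype.ext
  apply Equiv.ext
  intro x
  show w • x = w' • x
  apply nsmul_inj (m := 2) (by norm_num)
  have h1 : ∀ v : pointGroup T, 2 • (v • x) = ∑ i, (x.1 i) • (v • E hT i 1) := by
    intro v
    have h2 : 2 • (v • x) = v • (2 • x) := (smul_comm v 2 x).symm
    rw [h2, two_smul_eq hT, Finset.smul_sum]
    refine Finset.sum_congr rfl fun i _ => ?_
    have h3 : E hT i (x.1 i) = (x.1 i) • E hT i 1 := by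
      rw [zsmul_E, mul_one]
    rw [h3]
    exact smul_comm v (x.1 i) _
  rw [h1, h1]
  exact Finset.sum_congr rfl fun i _ => by rw [h]

theorem finite_point (hT : Nice T) : Finite (pointGroup T) := by
  have hfin : (Set.Icc (fun _ : Fin n => (-2 : ℤ)) (fun _ => 2)).Finite := Set.finite_Icc _ _
  have hmem : ∀ (w : pointGroup T) (i : Fin n), (w • E hT i 1).1 ∈
      Set.Icc (fun _ : Fin n => (-2 : ℤ)) (fun _ => 2) := by
    intro w i
    have h1 : nrm (w • E hT i 1).1 = 4 := by
      rw [point_nrm', E_nrm]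
      norm_num
    have h2 : ∀ j, (w • E hT i 1).1 j ^ 2 ≤ 2 ^ 2 := by
      intro j
      have h3 := Finset.single_le_sum (f := fun j => (w • E hT i 1).1 j ^ 2)
        (fun k _ => sq_nonneg _) (Finset.mem_univ j)
      have h4 : ∑ j, (w • E hT i 1).1 j ^ 2 = 4 := h1
      rw [h4] at h3
      exact h3
    exact ⟨fun j => (abs_le_of_sq_le_sq' (h2 j) (by norm_num)).1,
      fun j => (abs_le_of_sq_le_sq' (h2 j) (by norm_num)).2⟩
  have : Finite (Set.Icc (fun _ : Fin n => (-2 : ℤ)) (fun _ => 2)) := hfin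
  refine Finite.of_injective (β := Fin n → Set.Icc (fun _ : Fin n => (-2 : ℤ)) (fun _ => 2))
    (fun w i => ⟨(w • E hT i 1).1, hmem w i⟩) ?_
  intro w w' h
  apply point_ext hT
  intro i
  have h1 := congrFun h i
  exact Subtype.ext (Subtype.mk.inj h1)

theorem nrm_sub_le (x y : Fin n → ℤ) : nrm (x - y) ≤ 2 * (nrm x + nrm y) := by
  have h1 : 0 ≤ nrm (x + y) := Finset.sum_nonneg fun i _ => sq_nonneg _
  have h2 : nrm (x - y) + nrm (x + y) = 2 * (nrm x + nrm y) := by
    unfold nrm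
    rw [← Finset.sum_add_distrib, ← Finset.sum_add_distrib, Finset.mul_sum]
    refine Finset.sum_congr rfl fun i _ => ?_
    rw [Pi.sub_apply, Pi.add_apply]
    ring
  omega

theorem orbitLattice_smul (v : T) (m : ℕ) :
    orbitLattice T (m • v) = (orbitLattice T v).map (nsmulAddMonoidHom m) := by
  rw [orbitLattice_eq, orbitLattice_eq, AddMonoidHom.map_closure]
  congr 1
  ext x
  constructor
  · rintro ⟨w, rfl⟩
    exact ⟨w • v, ⟨w, rfl⟩, (smul_comm w m v).symm⟩
  · rintro ⟨_, ⟨w, rfl⟩, rfl⟩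
    exact ⟨w, smul_comm w m v⟩

theorem mem_orbitLattice_smul {v : T} {m : ℕ} {x : T} :
    x ∈ orbitLattice T (m • v) ↔ ∃ y ∈ orbitLattice T v, m • y = x := by
  rw [orbitLattice_smul]
  rfl

theorem self_mem (v : T) : v ∈ orbitLattice T v := by
  rw [orbitLattice_eq]
  exact AddSubgroup.subset_closure ⟨1, one_smul _ v⟩

/-- The faithfulness condition. -/
theorem faithful (hT : Nice T) (c : ℕ) (hc0 : c ≠ 0) (hc : ∀ i, Pi.single i (c : ℤ) ∈ T)
    (v : T) (lam : ℤ) (hlam : ∀ x ∈ orbitLattice T v, x ≠ 0 → lam ≤ nrm x.1) (s : ℕ)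
    (hs : 4 * (c : ℤ) ^ 2 < s ^ 2 * lam) (w : pointGroup T)
    (h : ∀ x : T, x - w • x ∈ orbitLattice T (s • v)) : w = 1 := by
  have key : ∀ i, w • (⟨Pi.single i (c : ℤ), hc i⟩ : T) = ⟨Pi.single i (c : ℤ), hc i⟩ := by
    intro i
    obtain ⟨u, hu⟩ : ∃ u : T, u = ⟨Pi.single i (c : ℤ), hc i⟩ := ⟨_, rfl⟩
    rw [← hu]
    have hun : nrm u.1 = (c : ℤ) ^ 2 := by
      rw [hu]
      show nrm (Pi.single i (c : ℤ) : Fin n → ℤ) = _
      unfold nrm
      rw [Finset.sum_eq_single i]
      · rw [Pi.single_eq_same]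
      · intro b _ hb
        rw [Pi.single_eq_of_ne hb]
        norm_num
      · intro h
        exact absurd (Finset.mem_univ i) h
    obtain ⟨y, hy, hyu⟩ := mem_orbitLattice_smul.mp (h u)
    by_cases hy0 : y = 0
    · rw [hy0, smul_zero] at hyu
      exact (sub_eq_zero.mp hyu.symm).symm
    · exfalso
      have h1 := hlam y hy hy0
      have h2 : nrm (u - w • u).1 = (s : ℤ) ^ 2 * nrm y.1 := by
        rw [← hyu, AddSubgroup.coe_nsmul]
        unfold nrm
        rw [Finset.mul_sum]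
        refine Finset.sum_congr rfl fun j _ => ?_
        rw [Pi.smul_apply, nsmul_eq_mul]
        ring
      have h3 := nrm_sub_le u.1 (w • u).1
      rw [point_nrm', hun, ← AddSubgroup.coe_sub, h2] at h3
      have h4 : (s : ℤ) ^ 2 * lam ≤ (s : ℤ) ^ 2 * nrm y.1 :=
        mul_le_mul_of_nonneg_left h1 (sq_nonneg _)
      linarith
  apply point_ext hT
  intro i
  rw [one_smul]
  apply nsmul_inj hc0
  have h1 : c • E hT i 1 = 2 • (⟨Pi.single i (c : ℤ), hc i⟩ : T) := by
    apply Subtype.ext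
    rw [AddSubgroup.coe_nsmul, AddSubgroup.coe_nsmul, E_val]
    funext j
    by_cases hj : j = i
    · subst hj
      simp
      ring
    · simp [hj]
  have h2 : c • w • E hT i 1 = w • c • E hT i 1 := (smul_comm w c _).symm
  rw [h2, h1]
  have h3 : w • 2 • (⟨Pi.single i (c : ℤ), hc i⟩ : T) =
      2 • w • (⟨Pi.single i (c : ℤ), hc i⟩ : T) := smul_comm w 2 _
  rw [h3, key]

/-- The lattice contains many multiples. -/
theorem mul_mem_orbitLattice (hT : Nice T) (v : T) (i : Fin n) (c : ℕ) (hv : v.1 i = c) (m : ℕ)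
    (x : T) : (2 * (m * c)) • x ∈ orbitLattice T (m • v) := by
  have h1 : E hT i (m * c) ∈ orbitLattice T (m • v) := by
    have h2 := coord_mem hT (fun w x hx => smul_mem_orbitLattice w hx) (self_mem (m • v)) i
    have h3 : (m • v : T).1 i = m * c := by
      rw [AddSubgroup.coe_nsmul, Pi.smul_apply, hv, nsmul_eq_mul]
    rwa [h3] at h2
  rw [mul_comm 2, mul_smul, two_smul_eq hT, Finset.smul_sum]
  refine sum_mem fun j _ => ?_
  have h3 : (m * c) • E hT j (x.1 j) = (x.1 j) • E hT j (m * c) := by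
    rw [← natCast_zsmul, zsmul_E, zsmul_E]
    congr 1
    push_cast
    ring
  rw [h3]
  exact zsmul_mem (swap_mem hT (fun w x hx => smul_mem_orbitLattice w hx) h1 j) _

theorem orbitLattice_index (hT : Nice T) (v : T) (i : Fin n) (c : ℕ) (hc : c ≠ 0)
    (hv : v.1 i = c) (m : ℕ) (hm : m ≠ 0) : (orbitLattice T (m • v)).index ≠ 0 ∧
      ∀ r, Nat.Coprime (2 * (m * c)) r → Nat.Coprime (orbitLattice T (m • v)).index r := by
  have h0 : (orbitLattice T (m • v)).index ≠ 0 := by
    intro h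
    have h1 : (orbitLattice T (m • v)).index ∣ (mulT T (2 * (m * c))).index :=
      AddSubgroup.index_dvd_of_le (by
        rintro x ⟨y, rfl⟩
        exact mul_mem_orbitLattice hT v i c hv m y)
    rw [h] at h1
    exact index_mulT_ne T _ (mul_ne_zero (by norm_num) (mul_ne_zero hm hc)) (zero_dvd_iff.mp h1)
  exact ⟨h0, fun r hr => coprime_index _ h0 hr (mul_mem_orbitLattice hT v i c hv m)⟩

theorem orbitLattice_mul (v : T) (a b : ℕ)
    (hab : Nat.Coprime b (orbitLattice T (a • v)).index) :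
    orbitLattice T ((a * b) • v) = orbitLattice T (a • v) ⊓ mulT T b := by
  have h0 : (a * b) • v = b • (a • v) := by rw [mul_comm, mul_smul]
  rw [h0]
  ext x
  rw [mem_orbitLattice_smul]
  constructor
  · rintro ⟨y, hy, rfl⟩
    exact ⟨nsmul_mem hy b, ⟨y, rfl⟩⟩
  · rintro ⟨hx, ⟨y, rfl⟩⟩
    rw [nsmulAddMonoidHom_apply] at hx ⊢
    refine ⟨y, ?_, rfl⟩
    exact mem_of_coprime hab hx (smul_index_mem _ y)

end Pool.Agent.Tor.All
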