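import Mathlib
import Pool.Agent.Tor.All.Iso

/-!
# The groups of the regular toroids
-/

set_option autoImplicit false

namespace Pool.Agent.Tor.All

instance translationsBy_normal {n : ℕ} (T : AddSubgroup (Fin n → ℤ)) (v : T) :
    (translationsBy T v).Normal where
  conj_mem := conj_mem_translationsBy

/-- The group of a regular toroid: the symmetry group of the tessellation modulo the translations
by the vectors of the lattice generated by the images of `v`. -/
abbrev Gamma {n : ℕ} (T : AddSubgroup (Fin n → ℤ)) (v : T) : Type :=
  isomGroup T ⧸ translationsBy T v

end Pool.Agent.Tor.All
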