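import Mathlib
import Pool.Agent.Tor.All.Toroid
import Pool.Agent.Tor.All.Prep

/-!
# The degrees for the regular toroids
-/

set_option autoImplicit false

namespace Pool.Agent.Tor.All

variable {n : ℕ} {T : AddSubgroup (Fin n → ℤ)}

theorem rz_iff {Q : Subgroup (pointGroup T)} {p : ℕ} {L : List (AddSubgroup T × ℕ)} :
    Realizable Q p L ↔ Rz Q p L := by
  refine exists_congr fun M => and_congr_right fun _ => and_congr_right fun _ => ?_
  refine forall_congr' fun j => ?_
  have h1 : ∀ x, (∃ y : T, p ^ j • (x - p • y) ∈ M) ↔ x ∈ lay p M j := by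
    intro x
    rw [mem_lay_iff]
    refine exists_congr fun y => ?_
    rw [pow_smul_iff, natCast_zsmul]
  constructor
  · intro h
    ext x
    rw [h, h1]
  · intro h x
    rw [h1, h]

theorem adm_iff {Q : Subgroup (pointGroup T)} {p b : ℕ} {Y : AddSubgroup T}
    {L : List (AddSubgroup T × ℕ)} : Admissible Q p b Y L ↔ IsTy Q p b Y L := by
  unfold Admissible IsTy
  rw [rz_iff]
  exact Iff.rfl

instance freeT (T : AddSubgroup (Fin n → ℤ)) : Module.Free ℤ T :=
  inferInstanceAs (Module.Free ℤ (AddSubgroup.toIntSubmodule T))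

instance finT (T : AddSubgroup (Fin n → ℤ)) : Module.Finite ℤ T :=
  inferInstanceAs (Module.Finite ℤ (AddSubgroup.toIntSubmodule T))

theorem local_odd (hT : Nice T) (hn : 0 < n) {p : ℕ} (hp : p.Prime) (hp2 : p ≠ 2) :
    LocalData T (pointGroup T) p (mulT T p) := by
  obtain ⟨h1, h2, h3⟩ := good hT hn hp hp2
  refine ⟨h1, fun x => ⟨x, rfl⟩, fun h => ?_, fun X hX hK => ?_⟩
  · obtain ⟨x, hx⟩ := h2
    obtain ⟨y, hy⟩ : x ∈ mulT T p := by
      rw [h]
      exact AddSubgroup.mem_top x
    exact hx y hy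
  · obtain ⟨K, hK⟩ := hK
    rcases h3 (X ⊔ mulT T p) (fun w x hx => by
      obtain ⟨a, ha, b, hb, rfl⟩ := AddSubgroup.mem_sup.mp hx
      obtain ⟨z, rfl⟩ := hb
      rw [smul_add]
      refine AddSubgroup.add_mem_sup (hX w a ha) ⟨w • z, ?_⟩
      rw [nsmulAddMonoidHom_apply, nsmulAddMonoidHom_apply]
      exact (smul_comm w p z).symm)
      (fun x => AddSubgroup.mem_sup_right ⟨x, rfl⟩) with h4 | h4
    · right
      intro x
      have h5 : lay p X 0 = ⊤ := by
        unfold lay
        rw [pow_zero, loc_one]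
        exact h4
      have h6 := lay_top hK (Nat.zero_le K) h5 (p • x)
      rwa [pow_zero, one_smul] at h6
    · left
      exact fun x hx => h4 x (AddSubgroup.mem_sup_left hx)

theorem coreLat_mulT {p e : ℕ} (he : 1 ≤ e) : coreLat p e (mulT T p) = mulT T (p ^ e) := by
  unfold coreLat
  rw [if_neg (by omega)]
  obtain ⟨k, rfl⟩ := Nat.exists_eq_add_of_le' he
  rw [Nat.add_sub_cancel]
  ext x
  constructor
  · rintro ⟨_, ⟨y, rfl⟩, rfl⟩
    refine ⟨y, ?_⟩
    rw [nsmulAddMonoidHom_apply, nsmulAddMonoidHom_apply, nsmulAddMonoidHom_apply, pow_succ,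
      mul_smul]
  · rintro ⟨y, rfl⟩
    refine ⟨p • y, ⟨y, rfl⟩, ?_⟩
    rw [nsmulAddMonoidHom_apply, nsmulAddMonoidHom_apply, pow_succ, mul_smul]

theorem main_abs (hT : Nice T) (v : T) (i : Fin n) (c : ℕ) (hc : c = 1 ∨ c = 2)
    (hv : v.1 i = c) (hv2 : ∀ y : T, 2 • y ≠ v)
    (hd2 : ∀ X : AddSubgroup T, (∀ (w : pointGroup T), ∀ x ∈ X, w • x ∈ X) →
      (∃ K : ℕ, ∀ x : T, 2 ^ K • x ∈ X) → (∀ x ∈ X, ∃ y, 2 • y = x) ∨ ∀ x : T, 2 • x ∈ X)
    (s : ℕ) (hs : s ≠ 0)
    (hf : ∀ w : pointGroup T, (∀ x : T, x - w • x ∈ orbitLattice T (s • v)) → w = 1) :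
    Degrees (Gamma T (s • v)) = degreeSet T v s := by
  have hfin : Finite (pointGroup T) := finite_point hT
  have hn : 0 < n := i.pos
  have hc0 : c ≠ 0 := by omega
  obtain ⟨e, he⟩ : ∃ e, e = s.factorization 2 := ⟨_, rfl⟩
  obtain ⟨s', hs', h2s'⟩ : ∃ s', s = 2 ^ e * s' ∧ Nat.Coprime 2 s' :=
    ⟨_, by rw [he]; exact (Nat.ordProj_mul_ordCompl_eq_self _ 2).symm,
      Nat.coprime_ordCompl Nat.prime_two hs⟩
  have hs'0 : s' ≠ 0 := by
    rintro rfl
    exact hs (by rw [hs', mul_zero])
  have h2e : 2 ^ e ≠ 0 := pow_ne_zero _ (by norm_num)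
  obtain ⟨hi0, hi1⟩ := orbitLattice_index hT v i c hc0 hv (2 ^ e) h2e
  have hcop : Nat.Coprime s' (orbitLattice T (2 ^ e • v)).index := by
    apply Nat.Coprime.symm
    apply hi1
    have hc' : Nat.Coprime c s' := by
      rcases hc with rfl | rfl
      · exact Nat.coprime_one_left s'
      · exact h2s'
    exact Nat.Coprime.mul_left h2s' (Nat.Coprime.mul_left (Nat.Coprime.pow_left e h2s') hc')
  have hL : orbitLattice T (s • v) = orbitLattice T (2 ^ e • v) ⊓ mulT T s' := by
    conv_lhs => rw [hs']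
    exact orbitLattice_mul v _ _ hcop
  have h2n : 2 ∉ s'.primeFactors := by
    intro h
    exact absurd (Nat.Coprime.eq_one_of_dvd h2s' (Nat.dvd_of_mem_primeFactors h)) (by norm_num)
  have hpf : (2 * s).primeFactors = insert 2 s'.primeFactors := by
    have h1 : 2 * s = 2 ^ (e + 1) * s' := by
      conv_lhs => rw [hs']
      ring
    rw [h1, Nat.primeFactors_mul (pow_ne_zero _ (by norm_num)) hs'0,
      Nat.primeFactors_prime_pow (by omega) Nat.prime_two]
    rfl
  have hp2 : ∀ p ∈ s'.primeFactors, p ≠ 2 := fun p hp h => h2n (h ▸ hp)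
  have hfac : ∀ p ∈ s'.primeFactors, s.factorization p = s'.factorization p := by
    intro p hp
    conv_lhs => rw [hs']
    rw [Nat.factorization_mul h2e hs'0, Finsupp.add_apply, Nat.factorization_pow,
      Finsupp.smul_apply, Nat.Prime.factorization Nat.prime_two,
      Finsupp.single_eq_of_ne (hp2 p hp), smul_zero, zero_add]
  have hΛ0 : (orbitLattice T (s • v)).index ≠ 0 := by
    rw [hL]
    exact AddSubgroup.index_inf_ne_zero hi0 (index_mulT_ne T s' hs'0)
  -- the local data at two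
  have hΛ2 : ∀ x : T, 2 • x ∈ orbitLattice T v := by
    rcases hd2 (orbitLattice T v) (fun w x hx => smul_mem_orbitLattice w hx) ⟨2, fun x => by
      have h1 := mul_mem_orbitLattice hT v i c hv 1 x
      rw [one_smul, one_mul] at h1
      rcases hc with rfl | rfl
      · have h2 : (2 ^ 2 : ℕ) • x = 2 • ((2 * 1) • x) := by
          rw [← mul_smul]; norm_num
        rw [h2]
        exact nsmul_mem h1 2
      · exact h1⟩ with h1 | h1
    · obtain ⟨y, hy⟩ := h1 v (self_mem v)
      exact absurd hy (hv2 y)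
    · exact h1
  have hmt : mulT T 2 ≠ ⊤ := by
    intro h
    obtain ⟨y, hy⟩ : v ∈ mulT T 2 := by
      rw [h]
      exact AddSubgroup.mem_top v
    exact hv2 y hy
  have h2data : LocalData T (pointGroup T) 2 (localCore T v 2) ∧
      coreLat 2 (localExp T v s 2) (localCore T v 2) = orbitLattice T (2 ^ e • v) := by
    unfold localCore localExp
    by_cases htop : orbitLattice T v = ⊤
    · rw [if_neg (by tauto), if_neg (by tauto), ← he]
      refine ⟨⟨fun x y h => nsmul_inj (by norm_num) h, fun x => ⟨x, rfl⟩, hmt, hd2⟩, ?_⟩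
      have h1 : orbitLattice T (2 ^ e • v) = mulT T (2 ^ e) := by
        rw [orbitLattice_smul, htop]
        exact (AddMonoidHom.range_eq_map _).symm
      rw [h1]
      by_cases he0 : e = 0
      · rw [he0, pow_zero, mulT_one]
        unfold coreLat
        rw [if_pos rfl]
      · exact coreLat_mulT (by omega)
    · rw [if_pos ⟨rfl, htop⟩, if_pos ⟨rfl, htop⟩, ← he]
      refine ⟨⟨fun x y h => nsmul_inj (by norm_num) h, hΛ2, htop, hd2⟩, ?_⟩
      unfold coreLat
      rw [if_neg (by omega), Nat.add_sub_cancel, orbitLattice_smul]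
  have hodd : ∀ p ∈ s'.primeFactors, LocalData T (pointGroup T) p (localCore T v p) ∧
      coreLat p (localExp T v s p) (localCore T v p) = mulT T (p ^ s'.factorization p) := by
    intro p hp
    have hpp := Nat.prime_of_mem_primeFactors hp
    have h1 : localCore T v p = mulT T p := by
      unfold localCore
      rw [if_neg (fun h => hp2 p hp h.1)]
      rfl
    have h2 : localExp T v s p = s'.factorization p := by
      unfold localExp
      rw [if_neg (fun h => hp2 p hp h.1), hfac p hp]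
    rw [h1, h2]
    exact ⟨local_odd hT hn hpp (hp2 p hp), coreLat_mulT
      (Nat.Prime.factorization_pos_of_dvd hpp hs'0 (Nat.dvd_of_mem_primeFactors hp))⟩
  ext d
  rw [degrees_abstract (τ T) (ι T) (ρ T) τ_inj ρ_ι ker_ρ conj_τ (orbitLattice T (s • v))
    (translationsBy T (s • v)) mem_translationsBy hf d]
  constructor
  · rintro ⟨_, M, Q, hc1, hQ, rfl⟩
    have h1 : RelQ Q (orbitLattice T (2 ^ e • v) ⊓ mulT T s') M.index := by
      rw [← hL]
      exact ⟨M, hQ, hc1, rfl⟩
    obtain ⟨m', f, h2, h3, h4⟩ := (rel_glob Q (index_mulT_ne T) hi0 s' hs'0 hcop _).mp h1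
    rw [← h2data.2, local_thm Q Nat.prime_two h2data.1] at h2
    obtain ⟨L₂, hL₂, hm'⟩ := h2
    have h5 : ∀ p, ∃ L : List (AddSubgroup T × ℕ), p ∈ s'.primeFactors →
        IsTy Q p (localExp T v s p) (localCore T v p) L ∧
          (L.map fun x => x.1.index ^ x.2).prod = f p := by
      intro p
      by_cases hp : p ∈ s'.primeFactors
      · have h6 := h3 p hp
        rw [← (hodd p hp).2, local_thm Q (Nat.prime_of_mem_primeFactors hp) (hodd p hp).1] at h6
        obtain ⟨L, hL⟩ := h6
        exact ⟨L, fun _ => hL⟩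
      · exact ⟨[], fun h => absurd h hp⟩
    choose L hLp using h5
    refine ⟨Q, Function.update L 2 L₂, ?_, ?_⟩
    · intro p hp
      rw [adm_iff]
      rw [hpf, Finset.mem_insert] at hp
      rcases hp with rfl | hp
      · rw [Function.update_self]
        exact hL₂
      · rw [Function.update_of_ne (hp2 p hp)]
        exact (hLp p hp).1
    · rw [hpf, Finset.prod_insert h2n, Function.update_self, hm', h4]
      have h6 : ∏ p ∈ s'.primeFactors, (((Function.update L 2 L₂) p).map
          fun x => x.1.index ^ x.2).prod = ∏ p ∈ s'.primeFactors, f p :=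
        Finset.prod_congr rfl fun p hp => by
          rw [Function.update_of_ne (hp2 p hp)]
          exact (hLp p hp).2
      rw [h6]
      ring
  · rintro ⟨Q, L, h1, rfl⟩
    have h2 : RelQ Q (orbitLattice T (2 ^ e • v)) ((L 2).map fun x => x.1.index ^ x.2).prod := by
      rw [← h2data.2, local_thm Q Nat.prime_two h2data.1]
      exact ⟨L 2, adm_iff.mp (h1 2 (by rw [hpf]; exact Finset.mem_insert_self _ _)), rfl⟩
    have h3 : RelQ Q (orbitLattice T (2 ^ e • v) ⊓ mulT T s')
        (((L 2).map fun x => x.1.index ^ x.2).prod *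
          ∏ p ∈ s'.primeFactors, ((L p).map fun x => x.1.index ^ x.2).prod) := by
      rw [rel_glob Q (index_mulT_ne T) hi0 s' hs'0 hcop]
      refine ⟨_, fun p => ((L p).map fun x => x.1.index ^ x.2).prod, h2, fun p hp => ?_, rfl⟩
      rw [← (hodd p hp).2, local_thm Q (Nat.prime_of_mem_primeFactors hp) (hodd p hp).1]
      exact ⟨L p, adm_iff.mp (h1 p (by rw [hpf]; exact Finset.mem_insert_of_mem hp)), rfl⟩
    rw [← hL] at h3
    obtain ⟨M, hQ, hc1, hM⟩ := h3
    rw [hpf, Finset.prod_insert h2n, ← hM]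
    have hM0 : M.index ≠ 0 := by
      intro h
      have h5 := AddSubgroup.index_dvd_of_le (core_le' hc1)
      rw [h] at h5
      exact hΛ0 (zero_dvd_iff.mp h5)
    refine ⟨Nat.pos_of_ne_zero (mul_ne_zero Subgroup.index_ne_zero_of_finite hM0), M, Q, hc1, hQ,
      mul_comm _ _⟩

end Pool.Agent.Tor.All
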