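import Mathlib
import Pool.Agent.Tor.All.Main
import Pool.Agent.Tor.All.Families

/-!
# The concrete lattices
-/

set_option autoImplicit false

namespace Pool.Agent.Tor.All

variable {n : ℕ} {T : AddSubgroup (Fin n → ℤ)}

theorem nice_top (n : ℕ) : Nice (⊤ : AddSubgroup (Fin n → ℤ)) :=
  ⟨fun _ => AddSubgroup.mem_top _, fun _ _ _ => AddSubgroup.mem_top _⟩

theorem mem_hurwitz {x : Fin 4 → ℤ} : x ∈ hurwitz ↔ ∀ i j, 2 ∣ x i - x j := Iff.rfl

theorem nice_hurwitz : Nice hurwitz := by
  refine ⟨fun x i j => ?_, fun w x hx => ?_⟩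
  · rw [Pi.smul_apply, Pi.smul_apply, ← smul_sub, nsmul_eq_mul]
    exact ⟨x i - x j, by push_cast; ring⟩
  · have h1 : x ∈ L3 4 1 := ⟨fun i => one_dvd _, fun i j => by rw [mul_one]; exact hx i j⟩
    have h2 := (smul_mem_L3 w h1).2
    intro i j
    have := h2 i j
    rwa [mul_one] at this

theorem orbitLattice_le {v : T} {K : AddSubgroup T} (h : ∀ w : pointGroup T, w • v ∈ K) :
    orbitLattice T v ≤ K := by
  rw [orbitLattice_eq, AddSubgroup.closure_le]
  rintro x ⟨w, rfl⟩
  exact h w

theorem nrm_nonneg (x : Fin n → ℤ) : 0 ≤ nrm x := Finset.sum_nonneg fun _ _ => sq_nonneg _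

theorem nrm_pos {x : T} (h : x ≠ 0) : 0 < nrm x.1 := by
  rcases (nrm_nonneg x.1).lt_or_eq with h1 | h1
  · exact h1
  · exact absurd (Subtype.ext (nrm_eq_zero h1.symm)) h

theorem two_dvd_nrm_sub (x : Fin n → ℤ) : 2 ∣ nrm x - ∑ i, x i := by
  unfold nrm
  rw [← Finset.sum_sub_distrib]
  refine Finset.dvd_sum fun i _ => ?_
  have h1 : Even (x i * (x i - 1)) := Int.even_mul_pred_self (x i)
  have h2 : x i ^ 2 - x i = x i * (x i - 1) := by ring
  rw [h2]
  exact h1.two_dvd

/-- The vectors with even coordinate sum. -/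
def evenSum (T : AddSubgroup (Fin n → ℤ)) : AddSubgroup T where
  carrier := {x | 2 ∣ ∑ i, x.1 i}
  add_mem' {a b} ha hb := by
    have : ∑ i, (a + b : T).1 i = ∑ i, a.1 i + ∑ i, b.1 i := Finset.sum_add_distrib
    show 2 ∣ ∑ i, (a + b : T).1 i
    rw [this]
    exact dvd_add ha hb
  zero_mem' := by
    show (2 : ℤ) ∣ ∑ i, (0 : T).1 i
    simp
  neg_mem' {a} ha := by
    have : ∑ i, (-a : T).1 i = - ∑ i, a.1 i := Finset.sum_neg_distrib ..
    show 2 ∣ ∑ i, (-a : T).1 i
    rw [this]
    exact (dvd_neg).mpr ha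

/-- The vectors with coordinates of the same parity. -/
def samePar (T : AddSubgroup (Fin n → ℤ)) : AddSubgroup T where
  carrier := {x | ∀ i j, 2 ∣ x.1 i - x.1 j}
  add_mem' {a b} ha hb i j := by
    have : (a + b : T).1 i - (a + b : T).1 j = (a.1 i - a.1 j) + (b.1 i - b.1 j) := by
      rw [AddSubgroup.coe_add, Pi.add_apply, Pi.add_apply]
      ring
    rw [this]
    exact dvd_add (ha i j) (hb i j)
  zero_mem' i j := by simp
  neg_mem' {a} ha i j := by
    have : (-a : T).1 i - (-a : T).1 j = - (a.1 i - a.1 j) := by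
      rw [AddSubgroup.coe_neg, Pi.neg_apply, Pi.neg_apply]
      ring
    rw [this]
    exact (dvd_neg).mpr (ha i j)

/-- The vectors with even coordinates and with coordinate sum divisible by four. -/
def twoEven (T : AddSubgroup (Fin n → ℤ)) : AddSubgroup T where
  carrier := {x | (∀ i, 2 ∣ x.1 i) ∧ 4 ∣ ∑ i, x.1 i}
  add_mem' {a b} ha hb := by
    refine ⟨fun i => dvd_add (ha.1 i) (hb.1 i), ?_⟩
    have : ∑ i, (a + b : T).1 i = ∑ i, a.1 i + ∑ i, b.1 i := Finset.sum_add_distrib
    rw [this]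
    exact dvd_add ha.2 hb.2
  zero_mem' := ⟨fun i => by simp, by simp⟩
  neg_mem' {a} ha := by
    refine ⟨fun i => (dvd_neg).mpr (ha.1 i), ?_⟩
    have : ∑ i, (-a : T).1 i = - ∑ i, a.1 i := Finset.sum_neg_distrib ..
    rw [this]
    exact (dvd_neg).mpr ha.2

/-- A nonzero vector with coordinates of the same parity has norm at least `min n 4`. -/
theorem samePar_nrm {m : ℤ} (hm : m ≤ n) (hm4 : m ≤ 4) {x : T} (hx : ∀ i j, 2 ∣ x.1 i - x.1 j)
    (h0 : x ≠ 0) : m ≤ nrm x.1 := by
  obtain ⟨j, hj⟩ : ∃ j, x.1 j ≠ 0 := by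
    by_contra hc
    push Not at hc
    exact h0 (Subtype.ext (funext hc))
  by_cases h2 : 2 ∣ x.1 j
  · obtain ⟨y, hy⟩ := h2
    have h3 := Finset.single_le_sum (f := fun i => x.1 i ^ 2)
      (fun k _ => sq_nonneg _) (Finset.mem_univ j)
    have h4 : x.1 j ^ 2 ≤ nrm x.1 := h3
    have h5 : y ≠ 0 := by
      rintro rfl
      exact hj (by rw [hy, mul_zero])
    have h6 : 0 < y ^ 2 := by positivity
    rw [hy, mul_pow] at h4
    linarith
  · have h3 : ∀ i, 1 ≤ x.1 i ^ 2 := by
      intro i
      have h4 : x.1 i ≠ 0 := by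
        intro h
        have h5 := hx i j
        rw [h, zero_sub, dvd_neg] at h5
        exact h2 h5
      have h5 : 0 < x.1 i ^ 2 := by positivity
      omega
    have h4 : (n : ℤ) ≤ nrm x.1 := by
      show (n : ℤ) ≤ ∑ i, x.1 i ^ 2
      have h5 : ∑ _i : Fin n, (1 : ℤ) ≤ ∑ i, x.1 i ^ 2 := Finset.sum_le_sum fun i _ => h3 i
      simpa using h5
    linarith

theorem evenSum_nrm {x : T} (hx : x ∈ evenSum T) (h0 : x ≠ 0) : 2 ≤ nrm x.1 := by
  have h1 := nrm_pos h0
  have h2 := two_dvd_nrm_sub x.1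
  have h3 : (2 : ℤ) ∣ ∑ i, x.1 i := hx
  omega

theorem twoEven_nrm {x : T} (hx : x ∈ twoEven T) (h0 : x ≠ 0) : 8 ≤ nrm x.1 := by
  have h1 := nrm_pos h0
  obtain ⟨h2, h3⟩ := hx
  choose y hy using h2
  have h4 : nrm x.1 = 4 * nrm y := by
    unfold nrm
    rw [Finset.mul_sum]
    refine Finset.sum_congr rfl fun i _ => ?_
    rw [hy]
    ring
  have h5 : ∑ i, x.1 i = 2 * ∑ i, y i := by
    rw [Finset.mul_sum]
    exact Finset.sum_congr rfl fun i _ => hy i
  have h6 := two_dvd_nrm_sub y
  omega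

theorem nrm_seed (n k : ℕ) (hk : k ≤ n) (c : ℤ) : nrm (seed n k c) = k * c ^ 2 := by
  unfold nrm seed
  have h1 : ∀ i : Fin n, (if i.val < k then c else 0) ^ 2 = if i.val < k then c ^ 2 else 0 := by
    intro i
    split_ifs
    · rfl
    · norm_num
  simp_rw [h1]
  rw [Finset.sum_ite, Finset.sum_const_zero, add_zero, Finset.sum_const, nsmul_eq_mul]
  congr 2
  have h2 : (Finset.univ.filter fun i : Fin n => i.val < k).card = k := by
    rw [Fin.card_filter_val_lt]
    exact min_eq_right hk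
  rw [h2]

theorem faithful_cubic {k s : ℕ} (hn : 3 ≤ n) (hk : k = 1 ∨ k = 2 ∨ k = n) (hs : 2 ≤ s)
    (hks : ¬ (k = 1 ∧ s = 2)) (w : pointGroup (⊤ : AddSubgroup (Fin n → ℤ)))
    (h : ∀ x, x - w • x ∈ orbitLattice ⊤ (s • cubicSeed n k)) : w = 1 := by
  have hs' : (2 : ℤ) ≤ s := by exact_mod_cast hs
  have hc : ∀ i, Pi.single i ((1 : ℕ) : ℤ) ∈ (⊤ : AddSubgroup (Fin n → ℤ)) :=
    fun i => AddSubgroup.mem_top _
  have hvn : ∀ w : pointGroup (⊤ : AddSubgroup (Fin n → ℤ)), k ≤ n →
      nrm (w • cubicSeed n k).1 = k := by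
    intro w hkn
    rw [point_nrm']
    show nrm (seed n k 1) = k
    rw [nrm_seed n k hkn]
    ring
  rcases hk with rfl | rfl | rfl
  · have hs3 : (3 : ℤ) ≤ s := by
      have : 3 ≤ s := by omega
      exact_mod_cast this
    refine faithful (nice_top n) 1 (by norm_num) hc (cubicSeed n 1) 1 ?_ s ?_ w h
    · intro x _ h0
      have := nrm_pos h0
      omega
    · push_cast
      nlinarith
  · refine faithful (nice_top n) 1 (by norm_num) hc (cubicSeed n 2) 2 ?_ s ?_ w h
    · intro x hx h0
      refine evenSum_nrm (orbitLattice_le (K := evenSum _) (fun w => ?_) hx) h0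
      have h1 := hvn w (by omega)
      have h2 := two_dvd_nrm_sub (w • cubicSeed n 2).1
      rw [h1] at h2
      show (2 : ℤ) ∣ ∑ i, (w • cubicSeed n 2).1 i
      omega
    · push_cast
      nlinarith
  · refine faithful (nice_top k) 1 (by norm_num) hc (cubicSeed k k) 3 ?_ s ?_ w h
    · intro x hx h0
      refine samePar_nrm (by exact_mod_cast hn) (by norm_num)
        (orbitLattice_le (K := samePar _) (fun w => ?_) hx) h0
      -- all coordinates of the images are odd
      have hodd : ∀ i, ¬ 2 ∣ (w • cubicSeed k k).1 i := by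
        intro i hi
        obtain ⟨u, hu⟩ : ∃ u : (⊤ : AddSubgroup (Fin k → ℤ)), u = ⟨Pi.single i 1,
          AddSubgroup.mem_top _⟩ := ⟨_, rfl⟩
        have h1 : ∑ j, (w • cubicSeed k k).1 j * u.1 j = (w • cubicSeed k k).1 i := by
          rw [hu, Finset.sum_eq_single i]
          · simp
          · intro b _ hb
            simp [hb]
          · intro h
            exact absurd (Finset.mem_univ i) h
        have h2 : ∑ j, (w • cubicSeed k k).1 j * (w • w⁻¹ • u).1 j =
            ∑ j, (cubicSeed k k).1 j * (w⁻¹ • u).1 j := point_inner w.2 _ _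
        rw [smul_inv_smul, h1] at h2
        have h3 : ∑ j, (cubicSeed k k).1 j * (w⁻¹ • u).1 j = ∑ j, (w⁻¹ • u).1 j := by
          refine Finset.sum_congr rfl fun j _ => ?_
          have : (cubicSeed k k).1 j = 1 := by
            show (if j.val < k then (1 : ℤ) else 0) = 1
            rw [if_pos j.2]
          rw [this, one_mul]
        have h4 := two_dvd_nrm_sub (w⁻¹ • u).1
        have h5 : nrm u.1 = 1 := by
          rw [hu]
          show nrm (Pi.single i 1 : Fin k → ℤ) = _
          unfold nrm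
          rw [Finset.sum_eq_single i]
          · rw [Pi.single_eq_same]
            norm_num
          · intro b _ hb
            rw [Pi.single_eq_of_ne hb]
            norm_num
          · intro h
            exact absurd (Finset.mem_univ i) h
        rw [point_nrm', h5, ← h3, ← h2] at h4
        omega
      intro i j
      have h1 := hodd i
      have h2 := hodd j
      omega
    · push_cast
      nlinarith

theorem faithful_hurwitz {k s : ℕ} (hk : k = 1 ∨ k = 2) (hs : 2 ≤ s)
    (hks : ¬ (k = 1 ∧ s = 2)) (w : pointGroup hurwitz)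
    (h : ∀ x, x - w • x ∈ orbitLattice hurwitz (s • hurwitzSeed k)) : w = 1 := by
  have hs' : (2 : ℤ) ≤ s := by exact_mod_cast hs
  have hc : ∀ i, Pi.single i ((2 : ℕ) : ℤ) ∈ hurwitz := by
    intro i
    have h1 := nice_hurwitz.h2 (Pi.single i 1)
    have h2 : (2 • Pi.single i 1 : Fin 4 → ℤ) = Pi.single i ((2 : ℕ) : ℤ) := by
      funext j
      by_cases hj : j = i
      · subst hj
        simp
      · simp [hj]
    rwa [h2] at h1
  rcases hk with rfl | rfl
  · have hs3 : (3 : ℤ) ≤ s := by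
      have : 3 ≤ s := by omega
      exact_mod_cast this
    refine faithful nice_hurwitz 2 (by norm_num) hc (hurwitzSeed 1) 4 ?_ s ?_ w h
    · intro x _ h0
      exact samePar_nrm (by norm_num) le_rfl x.2 h0
    · push_cast
      nlinarith
  · refine faithful nice_hurwitz 2 (by norm_num) hc (hurwitzSeed 2) 8 ?_ s ?_ w h
    · intro x hx h0
      refine twoEven_nrm (orbitLattice_le (K := twoEven _) (fun w => ?_) hx) h0
      obtain ⟨y, hy⟩ : ∃ y, y = w • hurwitzSeed 2 := ⟨_, rfl⟩
      have h1 : nrm y.1 = 8 := by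
        rw [hy, point_nrm']
        show nrm (seed 4 2 2) = 8
        rw [nrm_seed 4 2 (by norm_num)]
        norm_num
      rw [← hy]
      have hpar := y.2
      rw [mem_hurwitz] at hpar
      have hev : ∀ i, 2 ∣ y.1 i := by
        by_contra hcon
        push Not at hcon
        obtain ⟨i, hi⟩ := hcon
        have hodd : ∀ j, y.1 j ^ 2 % 8 = 1 := by
          intro j
          have h2 := hpar i j
          have h3 : Odd (y.1 j) := by
            rw [← Int.not_even_iff_odd, even_iff_two_dvd]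
            intro h
            exact hi (by omega)
          exact Int.sq_mod_eight_of_odd' h3
        have h2 : nrm y.1 = y.1 0 ^ 2 + y.1 1 ^ 2 + y.1 2 ^ 2 + y.1 3 ^ 2 := by
          unfold nrm
          rw [Fin.sum_univ_four]
        have a0 := hodd 0
        have a1 := hodd 1
        have a2 := hodd 2
        have a3 := hodd 3
        omega
      refine ⟨hev, ?_⟩
      choose z hz using hev
      have h4 : nrm y.1 = 4 * nrm z := by
        unfold nrm
        rw [Finset.mul_sum]
        refine Finset.sum_congr rfl fun i _ => ?_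
        rw [hz]
        ring
      have h5 : ∑ i, y.1 i = 2 * ∑ i, z i := by
        rw [Finset.mul_sum]
        exact Finset.sum_congr rfl fun i _ => hz i
      have h6 := two_dvd_nrm_sub z
      rw [h5]
      omega
    · push_cast
      nlinarith
where
  Int.sq_mod_eight_of_odd' {a : ℤ} (h : Odd a) : a ^ 2 % 8 = 1 := Int.sq_mod_eight_eq_one' h
  Int.sq_mod_eight_eq_one' {a : ℤ} (h : Odd a) : a ^ 2 % 8 = 1 := by
    obtain ⟨b, rfl⟩ := h
    have h1 : Even (b * (b + 1)) := Int.even_mul_succ_self b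
    obtain ⟨c, hc⟩ := h1
    have h2 : (2 * b + 1) ^ 2 = 1 + 8 * c := by linear_combination 4 * hc
    rw [h2]
    omega

/-- An odd coordinate produces all multiples of two. -/
theorem two_mem_of_odd (hT : Nice T) {X : AddSubgroup T}
    (hX : ∀ (w : pointGroup T), ∀ x ∈ X, w • x ∈ X) {K : ℕ} (hK : ∀ x : T, 2 ^ K • x ∈ X)
    {x : T} (hx : x ∈ X) {i : Fin n} (hi : ¬ 2 ∣ x.1 i) (y : T) : 2 • y ∈ X := by
  have h1 := coord_mem hT hX hx i
  have hic : IsCoprime (x.1 i) ((2 : ℤ) ^ K) := by
    apply IsCoprime.pow_right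
    rw [isCoprime_comm, Prime.coprime_iff_not_dvd Int.prime_two]
    exact hi
  obtain ⟨a, b, hab⟩ := hic
  have h2 : E hT i 1 ∈ X := by
    have h3 : E hT i 1 = a • E hT i (x.1 i) + b • (2 ^ K • E hT i 1) := by
      rw [zsmul_E, ← natCast_zsmul, smul_smul, zsmul_E]
      apply Subtype.ext
      rw [AddSubgroup.coe_add, E_val, E_val, E_val, ← Pi.single_add, ← mul_add]
      congr 2
      push_cast
      linear_combination -hab
    rw [h3]
    exact add_mem (zsmul_mem h1 a) (zsmul_mem (hK _) b)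
  rw [two_smul_eq hT]
  refine sum_mem fun j _ => ?_
  have h3 : E hT j (y.1 j) = (y.1 j) • E hT j 1 := by
    rw [zsmul_E, mul_one]
  rw [h3]
  exact zsmul_mem (swap_mem hT hX h2 j) _

theorem dich_top (X : AddSubgroup (⊤ : AddSubgroup (Fin n → ℤ)))
    (hX : ∀ (w : pointGroup (⊤ : AddSubgroup (Fin n → ℤ))), ∀ x ∈ X, w • x ∈ X)
    (hK : ∃ K : ℕ, ∀ x : (⊤ : AddSubgroup (Fin n → ℤ)), 2 ^ K • x ∈ X) :
    (∀ x ∈ X, ∃ y, 2 • y = x) ∨ ∀ x : (⊤ : AddSubgroup (Fin n → ℤ)), 2 • x ∈ X := by
  obtain ⟨K, hK⟩ := hK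
  by_cases h : ∀ x ∈ X, ∀ i, 2 ∣ x.1 i
  · left
    intro x hx
    choose y hy using h x hx
    refine ⟨⟨y, AddSubgroup.mem_top _⟩, Subtype.ext (funext fun i => ?_)⟩
    rw [AddSubgroup.coe_nsmul, Pi.smul_apply, nsmul_eq_mul, hy]
    rfl
  · right
    push Not at h
    obtain ⟨x, hx, i, hi⟩ := h
    exact two_mem_of_odd (nice_top n) hX hK hx hi

theorem dich_hurwitz (X : AddSubgroup hurwitz)
    (hX : ∀ (w : pointGroup hurwitz), ∀ x ∈ X, w • x ∈ X)
    (hK : ∃ K : ℕ, ∀ x : hurwitz, 2 ^ K • x ∈ X) :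
    (∀ x ∈ X, ∃ y, 2 • y = x) ∨ ∀ x : hurwitz, 2 • x ∈ X := by
  obtain ⟨K, hK⟩ := hK
  have hT := nice_hurwitz
  by_cases h : ∀ x ∈ X, ∀ i, 2 ∣ x.1 i
  · by_cases h2 : ∀ x ∈ X, ∀ z : Fin 4 → ℤ, (∀ i, x.1 i = 2 * z i) → z ∈ hurwitz
    · left
      intro x hx
      choose y hy using h x hx
      refine ⟨⟨y, h2 x hx y hy⟩, Subtype.ext (funext fun i => ?_)⟩
      rw [AddSubgroup.coe_nsmul, Pi.smul_apply, nsmul_eq_mul, hy]
      rfl
    · right
      push Not at h2
      obtain ⟨x, hx, z, hz, hzT⟩ := h2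
      rw [mem_hurwitz] at hzT
      push Not at hzT
      obtain ⟨i, j, hij⟩ := hzT
      have hne : i ≠ j := by
        rintro rfl
        exact hij (by simp)
      -- the difference with the swapped vector
      obtain ⟨g, hg⟩ := exists_point hT (⟨1, Equiv.swap i j⟩ : W 4)
      have h3 : E hT i (z i - z j) - E hT j (z i - z j) ∈ X := by
        have h4 : E hT i (z i - z j) - E hT j (z i - z j) = x - g • x := by
          apply Subtype.ext
          rw [AddSubgroup.coe_sub, AddSubgroup.coe_sub, E_val, E_val, hg]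
          funext k
          rw [Pi.sub_apply, Pi.sub_apply, smul_apply]
          have h5 : (Equiv.swap i j : Equiv.Perm (Fin 4))⁻¹ = Equiv.swap i j := Equiv.swap_inv i j
          show _ = x.1 k - (((1 : Fin 4 → ℤˣ) k : ℤˣ) : ℤ) * x.1 ((Equiv.swap i j)⁻¹ k)
          rw [h5]
          by_cases hki : k = i
          · subst hki
            rw [Equiv.swap_apply_left, Pi.single_eq_same, Pi.single_eq_of_ne hne, hz, hz]
            simp
            ring
          · by_cases hkj : k = j
            · subst hkj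
              rw [Equiv.swap_apply_right, Pi.single_eq_same, Pi.single_eq_of_ne hki, hz, hz]
              simp
              ring
            · rw [Equiv.swap_apply_of_ne_of_ne hki hkj, Pi.single_eq_of_ne hki,
                Pi.single_eq_of_ne hkj]
              simp
        rw [h4]
        exact sub_mem hx (hX g x hx)
      have hic : IsCoprime (z i - z j) ((2 : ℤ) ^ K) := by
        apply IsCoprime.pow_right
        rw [isCoprime_comm, Prime.coprime_iff_not_dvd Int.prime_two]
        exact hij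
      obtain ⟨a, b, hab⟩ := hic
      have hEe : ∀ k : Fin 4, E hT k 1 =
          a • E hT k (z i - z j) + b • (2 ^ K • E hT k 1) := by
        intro k
        rw [zsmul_E, ← natCast_zsmul, smul_smul, zsmul_E]
        apply Subtype.ext
        rw [AddSubgroup.coe_add, E_val, E_val, E_val, ← Pi.single_add, ← mul_add]
        congr 2
        push_cast
        linear_combination -hab
      have h4 : E hT i 1 - E hT j 1 ∈ X := by
        rw [hEe i, hEe j]
        have h5 : a • E hT i (z i - z j) + b • (2 ^ K • E hT i 1) -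
            (a • E hT j (z i - z j) + b • (2 ^ K • E hT j 1)) =
            a • (E hT i (z i - z j) - E hT j (z i - z j)) +
              b • (2 ^ K • E hT i 1 - 2 ^ K • E hT j 1) := by
          rw [smul_sub, smul_sub]
          abel
        rw [h5]
        exact add_mem (zsmul_mem h3 a) (zsmul_mem (sub_mem (hK _) (hK _)) b)
      -- all sums and differences
      have hpm : ∀ (k l : Fin 4) (u u' : ℤˣ), k ≠ l → E hT k u + E hT l u' ∈ X := by
        intro k l u u' hkl
        obtain ⟨σ, hσ1, hσ2⟩ : ∃ σ : Equiv.Perm (Fin 4), σ i = k ∧ σ j = l := by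
          refine ⟨Equiv.swap (Equiv.swap i k j) l * Equiv.swap i k, ?_, ?_⟩
          · rw [Equiv.Perm.mul_apply, Equiv.swap_apply_left, Equiv.swap_apply_of_ne_of_ne]
            · intro h
              have : Equiv.swap i k i = Equiv.swap i k j := by
                rw [Equiv.swap_apply_left]
                exact h
              exact hne ((Equiv.swap i k).injective this)
            · exact hkl
          · rw [Equiv.Perm.mul_apply, Equiv.swap_apply_left]
        obtain ⟨g', hg'⟩ := exists_point hT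
          (⟨Function.update (fun _ => u) l (-u'), σ⟩ : W 4)
        have h5 : E hT k u + E hT l u' = g' • (E hT i 1 - E hT j 1) := by
          rw [smul_sub]
          apply Subtype.ext
          rw [AddSubgroup.coe_add, AddSubgroup.coe_sub, hg', hg', E_val, E_val, E_val, E_val,
            smul_single, smul_single]
          have h6 : (⟨Function.update (fun _ => u) l (-u'), σ⟩ : W 4).right = σ := rfl
          have h7 : (⟨Function.update (fun _ => u) l (-u'), σ⟩ : W 4).left =
            Function.update (fun _ => u) l (-u') := rfl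
          rw [h6, h7, hσ1, hσ2, Function.update_self, Function.update_of_ne hkl, sub_eq_add_neg,
            ← Pi.single_neg]
          congr 2
          · ring
          · push_cast
            ring
        rw [h5]
        exact hX g' _ h4
      have h2E : ∀ k, E hT k 2 ∈ X := by
        intro k
        obtain ⟨l, hl⟩ : ∃ l : Fin 4, k ≠ l := by
          by_cases hk0 : k = 0
          · exact ⟨1, by rw [hk0]; decide⟩
          · exact ⟨0, hk0⟩
        have h5 := add_mem (hpm k l 1 1 hl) (hpm k l 1 (-1) hl)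
        have h6 : E hT k 2 = E hT k ((1 : ℤˣ) : ℤ) + E hT l ((1 : ℤˣ) : ℤ) +
            (E hT k ((1 : ℤˣ) : ℤ) + E hT l ((-1 : ℤˣ) : ℤ)) := by
          apply Subtype.ext
          rw [AddSubgroup.coe_add, AddSubgroup.coe_add, AddSubgroup.coe_add, E_val, E_val, E_val,
            E_val]
          funext m
          simp only [Pi.add_apply, Pi.single_apply]
          split_ifs <;> norm_num
        rw [h6]
        exact h5
      intro y
      have hy := y.2
      rw [mem_hurwitz] at hy
      obtain ⟨t, ht⟩ : ∃ t : Fin 4 → ℤ, ∀ k, y.1 k = y.1 0 + 2 * t k := by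
        choose t ht using fun k => hy k 0
        exact ⟨t, fun k => by linarith [ht k]⟩
      rw [two_smul_eq hT]
      have h5 : ∀ k, E hT k (y.1 k) = (y.1 0) • E hT k 1 + (t k) • E hT k 2 := by
        intro k
        rw [zsmul_E, zsmul_E]
        apply Subtype.ext
        rw [AddSubgroup.coe_add, E_val, E_val, E_val, ← Pi.single_add, ht k]
        congr 1
        ring
      rw [Finset.sum_congr rfl (fun k _ => h5 k), Finset.sum_add_distrib, ← Finset.smul_sum]
      refine add_mem (zsmul_mem ?_ _) (sum_mem fun k _ => zsmul_mem (h2E k) _)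
      rw [Fin.sum_univ_four]
      have h6 := add_mem (hpm 0 1 1 1 (by decide)) (hpm 2 3 1 1 (by decide))
      have h7 : E hT 0 1 + E hT 1 1 + E hT 2 1 + E hT 3 1 =
          E hT 0 ((1 : ℤˣ) : ℤ) + E hT 1 ((1 : ℤˣ) : ℤ) +
            (E hT 2 ((1 : ℤˣ) : ℤ) + E hT 3 ((1 : ℤˣ) : ℤ)) := by
        rw [Units.val_one]
        abel
      rw [h7]
      exact h6
  · right
    push Not at h
    obtain ⟨x, hx, i, hi⟩ := h
    exact two_mem_of_odd nice_hurwitz hX hK hx hi

theorem main_cubic {k s : ℕ} (hn : 3 ≤ n) (hk : k = 1 ∨ k = 2 ∨ k = n) (hs : 2 ≤ s)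
    (hks : ¬ (k = 1 ∧ s = 2)) :
    Degrees (Gamma ⊤ (s • cubicSeed n k)) = degreeSet ⊤ (cubicSeed n k) s := by
  have h0 : (cubicSeed n k).1 ⟨0, by omega⟩ = ((1 : ℕ) : ℤ) := by
    show (if (0 : ℕ) < k then (1 : ℤ) else 0) = ((1 : ℕ) : ℤ)
    rw [if_pos (by omega)]
    rfl
  refine main_abs (nice_top n) (cubicSeed n k) ⟨0, by omega⟩ 1 (Or.inl rfl) h0 (fun y hy => ?_)
    dich_top s (by omega) (faithful_cubic hn hk hs hks)
  have h1 := congrArg (fun z : (⊤ : AddSubgroup (Fin n → ℤ)) => z.1 ⟨0, by omega⟩) hy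
  simp only [AddSubgroup.coe_nsmul, Pi.smul_apply, nsmul_eq_mul] at h1
  rw [h0] at h1
  push_cast at h1
  omega

theorem main_hurwitz {k s : ℕ} (hk : k = 1 ∨ k = 2) (hs : 2 ≤ s)
    (hks : ¬ (k = 1 ∧ s = 2)) :
    Degrees (Gamma hurwitz (s • hurwitzSeed k)) = degreeSet hurwitz (hurwitzSeed k) s := by
  have h0 : (hurwitzSeed k).1 ⟨0, by omega⟩ = ((2 : ℕ) : ℤ) := by
    show (if (0 : ℕ) < k then (2 : ℤ) else 0) = ((2 : ℕ) : ℤ)
    rw [if_pos (by omega)]
    rfl
  refine main_abs nice_hurwitz (hurwitzSeed k) ⟨0, by omega⟩ 2 (Or.inr rfl) h0 (fun y hy => ?_)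
    dich_hurwitz s (by omega) (faithful_hurwitz hk hs hks)
  -- the last coordinate is zero and the first coordinate is two
  have h3 : (hurwitzSeed k).1 3 = 0 := by
    show (if (3 : ℕ) < k then (2 : ℤ) else 0) = 0
    rw [if_neg (by omega)]
  have h1 := congrArg (fun z : hurwitz => z.1 ⟨0, by omega⟩) hy
  have h2 := congrArg (fun z : hurwitz => z.1 3) hy
  simp only [AddSubgroup.coe_nsmul, Pi.smul_apply, nsmul_eq_mul] at h1 h2
  rw [h0] at h1
  rw [h3] at h2
  have h4 : 2 ∣ y.1 0 - y.1 3 := y.2 0 3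
  push_cast at h1 h2
  omega

end Pool.Agent.Tor.All
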