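import Mathlib
import Pool.Agent.Tor.All.Families

/-!
# The sets of degrees for the exceptional toroids
-/

set_option autoImplicit false

namespace Pool.Agent.Tor.All

/-- The products `[S_n : Q] [N : M]`, where `N = (ℤ × ℤ)^n` with the natural action of the
symmetric group `S_n`, `Q` is a subgroup of `S_n` and `M` is a `Q`-stable subgroup of `N` such that
the intersection of the images of `M` under `S_n` is `2 N`. -/
def exceptionalSet (n : ℕ) : Set ℕ :=
  {d | ∃ (Q : Subgroup (Equiv.Perm (Fin n))) (M : AddSubgroup (Fin n → ℤ × ℤ)),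
    (∀ σ ∈ Q, ∀ x ∈ M, x ∘ σ ∈ M) ∧
    (∀ x : Fin n → ℤ × ℤ, (∀ σ : Equiv.Perm (Fin n), x ∘ σ ∈ M) ↔
      ∀ i, 2 ∣ (x i).1 ∧ 2 ∣ (x i).2) ∧
    d = Q.index * M.index}

/-- The products `[W : Q] [T : M]`, where `T` is the lattice `hurwitz` with point group `W`, `Q` is
a subgroup of `W` and `M` is a `Q`-stable subgroup of `T` with core `2 T` such that there is a
crossed homomorphism from `Q` to `T / M` (given by a map `c` to `T`) which is nonzero at `-1` in
case `-1` lies in `Q`. -/
def exceptionalSet4 : Set ℕ :=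
  {d | ∃ (Q : Subgroup (pointGroup hurwitz)) (M : AddSubgroup hurwitz)
      (c : pointGroup hurwitz → hurwitz),
    StableUnder Q M ∧ CoreIs M (multiples hurwitz 2) ∧
    (∀ q ∈ Q, ∀ r ∈ Q, c (q * r) - (c q + q.1 (c r)) ∈ M) ∧
    (∀ q ∈ Q, (∀ x, q.1 x = -x) → c q ∉ M) ∧
    d = Q.index * M.index}

end Pool.Agent.Tor.All
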