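import Mathlib
import Pool.Agent.Tor.All.Concrete
import Pool.Agent.Tor.All.TwoN
import Pool.Agent.Tor.All.TwoDefs

/-!
# The exceptional cubic toroids
-/

set_option autoImplicit false

namespace Pool.Agent.Tor.All

/-- The lattice `ℤ^n` as a subgroup of itself. -/
def topE (n : ℕ) : (⊤ : AddSubgroup (Fin n → ℤ)) ≃ (Fin n → ℤ) where
  toFun x := x.1
  invFun x := ⟨x, AddSubgroup.mem_top x⟩
  left_inv _ := rfl
  right_inv _ := rfl

/-- The two descriptions of the symmetry group of the cubic tessellation agree. -/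
def isoC (n : ℕ) : isomGroup (⊤ : AddSubgroup (Fin n → ℤ)) ≃* cubicGroup n where
  toFun f := ⟨(topE n).permCongr f.1, fun x y => f.2 ((topE n).symm x) ((topE n).symm y)⟩
  invFun g := ⟨(topE n).symm.permCongr g.1, fun x y => g.2 x.1 y.1⟩
  left_inv f := by
    ext1
    ext1 x
    rfl
  right_inv g := by
    ext1
    ext1 x
    rfl
  map_mul' f g := by
    ext1
    ext1 x
    rfl

theorem isoC_apply (n : ℕ) (f : isomGroup (⊤ : AddSubgroup (Fin n → ℤ)))
    (x : (⊤ : AddSubgroup (Fin n → ℤ))) : (isoC n f).1 x.1 = (f.1 x).1 := rfl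

theorem seed_eq (n k s : ℕ) : (s • cubicSeed n k).1 = seed n k s := by
  rw [AddSubgroup.coe_nsmul]
  funext i
  show s • (if i.val < k then (1 : ℤ) else 0) = if i.val < k then (s : ℤ) else 0
  split_ifs <;> simp

theorem mem_orbit_iff (n k s : ℕ) (x : (⊤ : AddSubgroup (Fin n → ℤ))) :
    x ∈ orbitLattice ⊤ (s • cubicSeed n k) ↔ x.1 ∈ lattice n k s := by
  have h1 : (orbitLattice ⊤ (s • cubicSeed n k)).map (⊤ : AddSubgroup (Fin n → ℤ)).subtype =
      lattice n k s := by
    unfold orbitLattice lattice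
    rw [AddMonoidHom.map_closure]
    congr 1
    ext v
    constructor
    · rintro ⟨x, ⟨f, hf, hx⟩, rfl⟩
      refine ⟨(isoC n ⟨f, hf.1⟩).1, (isoC n ⟨f, hf.1⟩).2, ?_, ?_⟩
      · show (f 0).1 = 0
        rw [hf.2]
        rfl
      · rw [← seed_eq]
        show (f (s • cubicSeed n k)).1 = x.1
        rw [hx]
    · rintro ⟨g, hg, h0, hv⟩
      refine ⟨⟨v, AddSubgroup.mem_top v⟩, ⟨((isoC n).symm ⟨g, hg⟩).1,
        ⟨((isoC n).symm ⟨g, hg⟩).2, Subtype.ext h0⟩, ?_⟩, rfl⟩
      apply Subtype.ext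
      show g (s • cubicSeed n k).1 = v
      rw [seed_eq]
      exact hv
  rw [← h1]
  constructor
  · intro h
    exact ⟨x, h, rfl⟩
  · rintro ⟨y, hy, hxy⟩
    have : y = x := Subtype.ext hxy
    rwa [← this]

theorem map_translations (n k s : ℕ) :
    (translationsBy ⊤ (s • cubicSeed n k)).map (isoC n).toMonoidHom = translations n k s := by
  ext g
  constructor
  · rintro ⟨f, ⟨u, hu, hf⟩, rfl⟩
    refine ⟨u.1, (mem_orbit_iff n k s u).mp hu, fun x => ?_⟩
    show (f.1 ⟨x, AddSubgroup.mem_top x⟩).1 = x + u.1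
    rw [hf]
    rfl
  · rintro ⟨v, hv, hg⟩
    refine ⟨(isoC n).symm g, ⟨⟨v, AddSubgroup.mem_top v⟩, (mem_orbit_iff n k s _).mpr hv,
      fun x => Subtype.ext (hg x.1)⟩, ?_⟩
    exact (isoC n).apply_symm_apply g

theorem degrees_eq (n k s : ℕ) :
    Degrees (Gamma ⊤ (s • cubicSeed n k)) = Degrees (ToroidGroup n k s) :=
  degrees_congr (QuotientGroup.congr _ _ (isoC n) (map_translations n k s))

theorem main_exceptional (n : ℕ) :
    Degrees (Gamma ⊤ (2 • cubicSeed n 1)) = exceptionalSet n := by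
  rw [degrees_eq]
  ext d
  have h0 := TwoN.degrees6 (n := n) d
  rw [show (((2 : ℕ) : ℤ)) = 2 from rfl, h0]
  have hinv : ∀ (M : AddSubgroup (Fin n → ℤ × ℤ)) (x : Fin n → ℤ × ℤ),
      (∀ σ : Equiv.Perm (Fin n), σ • x ∈ M) ↔ ∀ σ : Equiv.Perm (Fin n), x ∘ σ ∈ M := by
    intro M x
    constructor
    · intro h σ
      have := h σ⁻¹
      have h2 : σ⁻¹ • x = x ∘ σ := by
        funext i
        rw [TwoN.smul6, inv_inv]
        rfl
      rwa [h2] at this
    · intro h σ
      exact h σ⁻¹
  constructor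
  · rintro ⟨_, M, Q, hc, hQ, rfl⟩
    refine ⟨Q, M, fun σ hσ x hx => ?_, fun x => ?_, mul_comm _ _⟩
    · have := hQ σ⁻¹ (inv_mem hσ) x hx
      have h2 : σ⁻¹ • x = x ∘ σ := by
        funext i
        rw [TwoN.smul6, inv_inv]
        rfl
      rwa [h2] at this
    · rw [← hinv, hc]
      exact TwoN.mem_E6
  · rintro ⟨Q, M, hQ, hc, rfl⟩
    have hM0 : M.index ≠ 0 := by
      intro h
      have hE : (TwoN.E6 n).index ≠ 0 := by
        have h1 : TwoN.E6 n = mulT (Fin n → ℤ × ℤ) 2 := by
          ext x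
          rw [TwoN.mem_E6]
          constructor
          · intro h
            choose a ha using fun i => (h i).1
            choose b hb using fun i => (h i).2
            exact ⟨fun i => (a i, b i), funext fun i => by
              rw [nsmulAddMonoidHom_apply, Pi.smul_apply]
              ext
              · show 2 • a i = (x i).1
                rw [ha, nsmul_eq_mul]
                rfl
              · show 2 • b i = (x i).2
                rw [hb, nsmul_eq_mul]
                rfl⟩
          · rintro ⟨y, rfl⟩ i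
            rw [nsmulAddMonoidHom_apply, Pi.smul_apply]
            exact ⟨⟨(y i).1, by
              show 2 • (y i).1 = _
              rw [nsmul_eq_mul]
              rfl⟩, ⟨(y i).2, by
              show 2 • (y i).2 = _
              rw [nsmul_eq_mul]
              rfl⟩⟩
        rw [h1, AddSubgroup.index_ne_zero_iff_finite]
        have h2 : AddGroup.FG ((Fin n → ℤ × ℤ) ⧸ mulT (Fin n → ℤ × ℤ) 2) := inferInstance
        apply AddCommGroup.finite_of_fg_isAddTorsion
        intro x
        obtain ⟨y, rfl⟩ := QuotientAddGroup.mk_surjective x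
        rw [isOfFinAddOrder_iff_nsmul_eq_zero]
        exact ⟨2, by norm_num, (QuotientAddGroup.eq_zero_iff (2 • y)).mpr ⟨y, rfl⟩⟩
      have hle : TwoN.E6 n ≤ M := by
        intro x hx
        have := (hc x).mpr (TwoN.mem_E6.mp hx) 1
        exact this
      have h5 := AddSubgroup.index_dvd_of_le hle
      rw [h] at h5
      exact hE (zero_dvd_iff.mp h5)
    refine ⟨Nat.pos_of_ne_zero (mul_ne_zero Subgroup.index_ne_zero_of_finite hM0), M, Q, ?_, ?_,
      mul_comm _ _⟩
    · intro x
      rw [hinv, hc]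
      exact TwoN.mem_E6.symm
    · intro σ hσ x hx
      exact hQ σ⁻¹ (inv_mem hσ) x hx

end Pool.Agent.Tor.All
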