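import Mathlib
import Pool.Agent.Tor.All.Concrete
import Pool.Agent.Tor.All.TwoDefs
import Pool.Agent.Tor.Central

/-!
# The exceptional toroid `{3,3,4,3}_(2,0,0,0)`
-/

set_option autoImplicit false

namespace Pool.Agent.Tor.All

/-- The coefficient of a reflection. -/
def rc (x : Fin 4 → ℤ) : ℤ := (x 0 - x 1 - x 2 - x 3) / 2

theorem two_rc {x : Fin 4 → ℤ} (hx : x ∈ hurwitz) : 2 * rc x = x 0 - x 1 - x 2 - x 3 := by
  rw [mem_hurwitz] at hx
  have h1 := hx 0 1
  have h2 := hx 2 3
  unfold rc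
  omega

/-- A reflection. -/
def rf (x : Fin 4 → ℤ) : Fin 4 → ℤ := ![x 0 - rc x, x 1 + rc x, x 2 + rc x, x 3 + rc x]

theorem rf_mem {x : Fin 4 → ℤ} (hx : x ∈ hurwitz) : rf x ∈ hurwitz := by
  have h1 : ∀ i j, 2 ∣ x i - x j := hx
  have h01 := h1 0 1
  have h02 := h1 0 2
  have h03 := h1 0 3
  rw [mem_hurwitz]
  intro i j
  unfold rf
  fin_cases i <;> fin_cases j <;>
    simp only [Fin.zero_eta, Fin.mk_one, Fin.reduceFinMk, Matrix.cons_val] <;> omega

theorem rf_rf {x : Fin 4 → ℤ} (hx : x ∈ hurwitz) : rf (rf x) = x := by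
  have h1 := two_rc hx
  have h2 := two_rc (rf_mem hx)
  have e0 : rf x 0 = x 0 - rc x := rfl
  have e1 : rf x 1 = x 1 + rc x := rfl
  have e2 : rf x 2 = x 2 + rc x := rfl
  have e3 : rf x 3 = x 3 + rc x := rfl
  rw [e0, e1, e2, e3] at h2
  have h3 : rc (rf x) = - rc x := by omega
  funext i
  fin_cases i
  · show rf x 0 - rc (rf x) = x 0
    rw [e0, h3]; ring
  · show rf x 1 + rc (rf x) = x 1
    rw [e1, h3]; ring
  · show rf x 2 + rc (rf x) = x 2
    rw [e2, h3]; ring
  · show rf x 3 + rc (rf x) = x 3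
    rw [e3, h3]; ring

/-- The reflection as an element of the point group. -/
def rfl4 : pointGroup hurwitz :=
  ⟨⟨fun x => ⟨rf x.1, rf_mem x.2⟩, fun x => ⟨rf x.1, rf_mem x.2⟩,
    fun x => Subtype.ext (rf_rf x.2), fun x => Subtype.ext (rf_rf x.2)⟩, by
    refine ⟨fun x y => ?_, ?_⟩
    · have h1 := two_rc x.2
      have h2 := two_rc y.2
      rw [Fin.sum_univ_four, Fin.sum_univ_four]
      show (x.1 0 - rc x.1 - (y.1 0 - rc y.1)) ^ 2 + (x.1 1 + rc x.1 - (y.1 1 + rc y.1)) ^ 2 +
        (x.1 2 + rc x.1 - (y.1 2 + rc y.1)) ^ 2 + (x.1 3 + rc x.1 - (y.1 3 + rc y.1)) ^ 2 = _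
      linear_combination (2 * (rc x.1 - rc y.1)) * (h1 - h2)
    · apply Subtype.ext
      have h0 : rc (0 : Fin 4 → ℤ) = 0 := by
        unfold rc
        simp
      funext i
      show rf (0 : Fin 4 → ℤ) i = 0
      unfold rf
      rw [h0]
      fin_cases i <;> simp⟩

theorem E_zero_one : E nice_hurwitz 0 1 = hurwitzSeed 1 := by
  apply Subtype.ext
  rw [E_val]
  funext i
  show (Pi.single 0 (2 * 1) : Fin 4 → ℤ) i = if i.val < 1 then (2 : ℤ) else 0
  fin_cases i <;> simp

/-- The vector `(1,1,1,1)`. -/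
def h4 : hurwitz := ⟨fun _ => 1, fun i j => by simp⟩

theorem rfl4_seed : rfl4 • hurwitzSeed 1 = h4 := by
  apply Subtype.ext
  show rf (seed 4 1 2) = fun _ => 1
  have e0 : seed 4 1 2 0 = 2 := rfl
  have e1 : seed 4 1 2 1 = 0 := rfl
  have e2 : seed 4 1 2 2 = 0 := rfl
  have e3 : seed 4 1 2 3 = 0 := rfl
  have h0 : rc (seed 4 1 2) = 1 := by
    unfold rc
    rw [e0, e1, e2, e3]
    norm_num
  funext i
  unfold rf
  rw [h0, e0, e1, e2, e3]
  fin_cases i <;> simp

theorem orbit_top : orbitLattice hurwitz (hurwitzSeed 1) = ⊤ := by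
  have hT := nice_hurwitz
  have hst : ∀ (w : pointGroup hurwitz), ∀ x ∈ orbitLattice hurwitz (hurwitzSeed 1),
      w • x ∈ orbitLattice hurwitz (hurwitzSeed 1) := fun w x hx => smul_mem_orbitLattice w hx
  have h1 : ∀ j, E hT j 1 ∈ orbitLattice hurwitz (hurwitzSeed 1) := by
    intro j
    apply swap_mem hT hst (i := 0)
    rw [E_zero_one]
    exact self_mem _
  have h2 : h4 ∈ orbitLattice hurwitz (hurwitzSeed 1) := by
    rw [← rfl4_seed]
    exact hst _ _ (self_mem _)
  rw [eq_top_iff]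
  intro x _
  have hx := x.2
  rw [mem_hurwitz] at hx
  obtain ⟨t, ht⟩ : ∃ t : Fin 4 → ℤ, ∀ k, x.1 k = x.1 0 + 2 * t k := by
    choose t ht using fun k => hx k 0
    exact ⟨t, fun k => by linarith [ht k]⟩
  have h3 : x = (x.1 0) • h4 + ∑ k, t k • E hT k 1 := by
    apply Subtype.ext
    rw [AddSubgroup.coe_add, AddSubgroup.val_finsetSum]
    funext j
    rw [Pi.add_apply, Finset.sum_apply, Finset.sum_eq_single j]
    · rw [zsmul_E, E_val, Pi.single_eq_same]
      show x.1 j = x.1 0 * 1 + 2 * (t j * 1)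
      rw [ht j]
      ring
    · intro b _ hb
      rw [zsmul_E, E_val, Pi.single_eq_of_ne (Ne.symm hb)]
    · intro h
      exact absurd (Finset.mem_univ j) h
  rw [h3]
  exact add_mem (zsmul_mem h2 _) (sum_mem fun k _ => zsmul_mem (h1 k) _)

theorem mem_L2T {x : hurwitz} :
    x ∈ orbitLattice hurwitz (2 • hurwitzSeed 1) ↔ ∃ y : hurwitz, 2 • y = x := by
  rw [mem_orbitLattice_smul, orbit_top]
  constructor
  · rintro ⟨y, _, h⟩
    exact ⟨y, h⟩
  · rintro ⟨y, h⟩
    exact ⟨y, AddSubgroup.mem_top _, h⟩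

theorem exists_neg : ∃ z : pointGroup hurwitz, ∀ x : hurwitz, z • x = -x := by
  obtain ⟨g, hg⟩ := exists_point nice_hurwitz (⟨fun _ => -1, 1⟩ : W 4)
  refine ⟨g, fun x => Subtype.ext ?_⟩
  rw [hg]
  funext i
  rw [smul_apply]
  simp

/-- A vector of norm four is mapped to plus or minus itself. -/
theorem pm_of_nrm {w : pointGroup hurwitz}
    (h : ∀ x : hurwitz, x - w • x ∈ orbitLattice hurwitz (2 • hurwitzSeed 1)) {u : hurwitz}
    (hu : nrm u.1 = 4) : w • u = u ∨ w • u = -u := by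
  obtain ⟨y, hy⟩ := mem_L2T.mp (h u)
  by_cases hy0 : y = 0
  · left
    rw [hy0, smul_zero] at hy
    exact (sub_eq_zero.mp hy.symm).symm
  · right
    have h1 : 4 ≤ nrm y.1 := samePar_nrm (by norm_num) le_rfl y.2 hy0
    have h2 : nrm (u - w • u).1 = 4 * nrm y.1 := by
      rw [← hy, AddSubgroup.coe_nsmul]
      unfold nrm
      rw [Finset.mul_sum]
      refine Finset.sum_congr rfl fun j _ => ?_
      rw [Pi.smul_apply, nsmul_eq_mul]
      push_cast
      ring
    have h3 : nrm (u.1 - (w • u).1) + nrm (u.1 + (w • u).1) = 2 * (nrm u.1 + nrm (w • u).1) := by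
      unfold nrm
      rw [← Finset.sum_add_distrib, ← Finset.sum_add_distrib, Finset.mul_sum]
      refine Finset.sum_congr rfl fun i _ => ?_
      rw [Pi.sub_apply, Pi.add_apply]
      ring
    rw [AddSubgroup.coe_sub] at h2
    rw [point_nrm', hu] at h3
    have h4 := nrm_nonneg (u.1 + (w • u).1)
    have h5 : nrm (u.1 + (w • u).1) = 0 := by omega
    have h6 := nrm_eq_zero h5
    apply Subtype.ext
    rw [AddSubgroup.coe_neg]
    exact (neg_eq_of_add_eq_zero_right h6).symm

theorem kernel4 {z : pointGroup hurwitz} (hz : ∀ x : hurwitz, z • x = -x)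
    (w : pointGroup hurwitz)
    (h : ∀ x : hurwitz, x - w • x ∈ orbitLattice hurwitz (2 • hurwitzSeed 1)) :
    w = 1 ∨ w = z := by
  have hT := nice_hurwitz
  have hE : ∀ i, w • E hT i 1 = E hT i 1 ∨ w • E hT i 1 = -E hT i 1 := fun i =>
    pm_of_nrm h (by rw [E_nrm]; norm_num)
  have hh : w • h4 = h4 ∨ w • h4 = -h4 := pm_of_nrm h (by
    unfold nrm h4
    simp)
  have hin : ∀ i, ∑ k, (w • E hT i 1).1 k * (w • h4).1 k = 2 := by
    intro i
    have h1 : ∑ k, (w • E hT i 1).1 k * (w • h4).1 k = ∑ k, (E hT i 1).1 k * h4.1 k :=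
      point_inner w.2 _ _
    rw [h1, Finset.sum_eq_single i]
    · rw [E_val, Pi.single_eq_same]
      rfl
    · intro b _ hb
      rw [E_val, Pi.single_eq_of_ne hb, zero_mul]
    · intro h
      exact absurd (Finset.mem_univ i) h
  have hin0 : ∀ i, ∑ k, (E hT i 1).1 k * h4.1 k = 2 := by
    intro i
    rw [Finset.sum_eq_single i]
    · rw [E_val, Pi.single_eq_same]
      rfl
    · intro b _ hb
      rw [E_val, Pi.single_eq_of_ne hb, zero_mul]
    · intro h
      exact absurd (Finset.mem_univ i) h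
  rcases hh with hh | hh
  · left
    apply point_ext hT
    intro i
    rw [one_smul]
    rcases hE i with h1 | h1
    · exact h1
    · exfalso
      have h2 := hin i
      rw [h1, hh] at h2
      have h3 : ∑ k, (-E hT i 1 : hurwitz).1 k * h4.1 k = - ∑ k, (E hT i 1).1 k * h4.1 k := by
        rw [← Finset.sum_neg_distrib]
        refine Finset.sum_congr rfl fun k _ => ?_
        rw [AddSubgroup.coe_neg, Pi.neg_apply]
        ring
      rw [h3, hin0] at h2
      norm_num at h2
  · right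
    apply point_ext hT
    intro i
    rw [hz]
    rcases hE i with h1 | h1
    · exfalso
      have h2 := hin i
      rw [h1, hh] at h2
      have h3 : ∑ k, (E hT i 1 : hurwitz).1 k * (-h4).1 k = - ∑ k, (E hT i 1).1 k * h4.1 k := by
        rw [← Finset.sum_neg_distrib]
        refine Finset.sum_congr rfl fun k _ => ?_
        rw [AddSubgroup.coe_neg, Pi.neg_apply]
        ring
      rw [h3, hin0] at h2
      norm_num at h2
    · exact h1

theorem fixed4 (t : hurwitz)
    (h : ∀ w : pointGroup hurwitz, w • t - t ∈ orbitLattice hurwitz (2 • hurwitzSeed 1)) :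
    t ∈ orbitLattice hurwitz (2 • hurwitzSeed 1) := by
  have hT := nice_hurwitz
  have hother : ∀ i : Fin 4, ∃ j, j ≠ i := by
    intro i
    by_cases hi : i = 0
    · exact ⟨1, by rw [hi]; decide⟩
    · exact ⟨0, fun h => hi h.symm⟩
  have hev : ∀ i, 2 ∣ t.1 i := by
    intro i
    obtain ⟨g, hg⟩ := exists_point hT (⟨Function.update 1 i (-1), 1⟩ : W 4)
    obtain ⟨y, hy⟩ := mem_L2T.mp (h g)
    have h1 : ∀ j, 2 * y.1 j = (((Function.update 1 i (-1) : Fin 4 → ℤˣ) j : ℤˣ) : ℤ) * t.1 j -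
        t.1 j := by
      intro j
      have h2 := congrArg (fun x : hurwitz => x.1 j) hy
      simp only [AddSubgroup.coe_nsmul, Pi.smul_apply, nsmul_eq_mul, AddSubgroup.coe_sub,
        Pi.sub_apply] at h2
      rw [hg, smul_apply] at h2
      exact_mod_cast h2
    obtain ⟨j, hj⟩ := hother i
    have h2 := h1 i
    have h3 := h1 j
    rw [Function.update_self] at h2
    rw [Function.update_of_ne hj] at h3
    have h5 := y.2 i j
    simp only [Units.val_neg, Units.val_one, Pi.one_apply] at h2 h3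
    omega
  choose u hu using hev
  have hu2 : u ∈ hurwitz := by
    rw [mem_hurwitz]
    intro i j
    by_cases hij : i = j
    · subst hij
      simp
    · obtain ⟨g, hg⟩ := exists_point hT (⟨1, Equiv.swap i j⟩ : W 4)
      obtain ⟨y, hy⟩ := mem_L2T.mp (h g)
      have h1 : ∀ k, 2 * y.1 k = t.1 (Equiv.swap i j k) - t.1 k := by
        intro k
        have h2 := congrArg (fun x : hurwitz => x.1 k) hy
        simp only [AddSubgroup.coe_nsmul, Pi.smul_apply, nsmul_eq_mul, AddSubgroup.coe_sub,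
          Pi.sub_apply] at h2
        rw [hg, smul_apply] at h2
        have h5 : (⟨1, Equiv.swap i j⟩ : W 4).right⁻¹ = Equiv.swap i j := Equiv.swap_inv i j
        rw [h5] at h2
        have h6 : (((⟨1, Equiv.swap i j⟩ : W 4).left k : ℤˣ) : ℤ) = 1 := rfl
        rw [h6, one_mul] at h2
        exact_mod_cast h2
      -- a third coordinate
      have hthird : ∀ i j : Fin 4, ∃ k : Fin 4, k ≠ i ∧ k ≠ j := by decide
      obtain ⟨k, hki, hkj⟩ := hthird i j
      have h2 := h1 i
      have h3 := h1 k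
      rw [Equiv.swap_apply_left] at h2
      rw [Equiv.swap_apply_of_ne_of_ne hki hkj] at h3
      have h5 := y.2 i k
      have h6 := hu i
      have h7 := hu j
      omega
  rw [mem_L2T]
  refine ⟨⟨u, hu2⟩, Subtype.ext (funext fun i => ?_)⟩
  rw [AddSubgroup.coe_nsmul, Pi.smul_apply, nsmul_eq_mul, hu i]
  rfl

theorem main_exceptional4 :
    Degrees (Gamma hurwitz (2 • hurwitzSeed 1)) = exceptionalSet4 := by
  obtain ⟨z, hz⟩ := exists_neg
  have hT := nice_hurwitz
  have hfin : Finite (pointGroup hurwitz) := finite_point hT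
  have hz1 : z ≠ 1 := by
    rintro rfl
    have h1 := hz (E hT 0 1)
    rw [one_smul] at h1
    have h2 := congrArg (fun x : hurwitz => x.1 0) h1
    simp only [AddSubgroup.coe_neg, Pi.neg_apply, E_val, Pi.single_eq_same] at h2
    norm_num at h2
  have hzc : ∀ w : pointGroup hurwitz, w * z = z * w := by
    intro w
    apply point_ext hT
    intro i
    rw [mul_smul, mul_smul, hz, hz, smul_neg]
  have hmul : ∀ x : hurwitz, x ∈ orbitLattice hurwitz (2 • hurwitzSeed 1) ↔
      x ∈ multiples hurwitz 2 := fun x => mem_L2T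
  have hzu : ∀ q : pointGroup hurwitz, (∀ x, q.1 x = -x) → q = z := by
    intro q hq
    apply point_ext hT
    intro i
    rw [hz]
    exact hq _
  ext d
  rw [degrees_central (τ hurwitz) (ι hurwitz) (ρ hurwitz) τ_inj ρ_ι ker_ρ conj_τ
    (orbitLattice hurwitz (2 • hurwitzSeed 1)) (translationsBy hurwitz (2 • hurwitzSeed 1))
    mem_translationsBy z hz1 hzc (kernel4 hz) (fun x => by
      rw [hz, sub_neg_eq_add, mem_L2T]
      exact ⟨x, two_nsmul x⟩) fixed4 d]
  constructor
  · rintro ⟨_, M, Q, c, hcore, hQ, hc, hcz, rfl⟩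
    refine ⟨Q, M, c, hQ, fun x => (hcore x).trans (hmul x), hc, fun q hq hqx => ?_, mul_comm _ _⟩
    have := hzu q hqx
    subst this
    exact hcz hq
  · rintro ⟨Q, M, c, hQ, hcore, hc, hcz, rfl⟩
    have hM0 : M.index ≠ 0 := by
      intro h
      have hle : mulT hurwitz 2 ≤ M := by
        rintro x hx
        have := (hcore x).mpr hx 1
        exact this
      have h5 := AddSubgroup.index_dvd_of_le hle
      rw [h] at h5
      exact index_mulT_ne hurwitz 2 (by norm_num) (zero_dvd_iff.mp h5)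
    exact ⟨Nat.pos_of_ne_zero (mul_ne_zero Subgroup.index_ne_zero_of_finite hM0), M, Q, c,
      fun x => (hcore x).trans (hmul x).symm, hQ, hc, fun hz' => hcz z hz' hz, mul_comm _ _⟩

end Pool.Agent.Tor.All
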